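import Mathlib
import Pool.Agent.Helper281.Sc.LN

set_option autoImplicit false

namespace Pool.Agent.Helper105

open MeasureTheory Set

/-- Lusin-Novikov in function form, with an injective enumeration of the sections. -/
theorem enum {X Y : Type*} [MeasurableSpace X] [StandardBorelSpace X] [MeasurableSpace Y]
    [StandardBorelSpace Y] (y0 : Y) {R : Set (X × Y)} (hR : MeasurableSet R)
    (hc : ∀ x, {y | (x, y) ∈ R}.Countable) :
    ∃ (g : ℕ → X → Y) (D : ℕ → Set X), (∀ n, Measurable (g n)) ∧ (∀ n, MeasurableSet (D n)) ∧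
      (∀ x y, (x, y) ∈ R ↔ ∃ n, x ∈ D n ∧ g n x = y) ∧
      (∀ x m n, x ∈ D m → x ∈ D n → g m x = g n x → m = n) := by
  classical
  let _ := upgradeStandardBorel X
  let _ := upgradeStandardBorel Y
  obtain ⟨G, hG1, hG2, hG3⟩ := Pool.Agent.Helper281.LN.lusin_novikov hR hc
  have hinj : ∀ n, InjOn (Prod.fst : X × Y → X) (G n) := by
    rintro n ⟨a, b⟩ h1 ⟨a', b'⟩ h2 hab
    simp only at hab
    subst hab
    rw [hG3 n _ _ _ h1 h2]
  have hD0 : ∀ n, MeasurableSet (Prod.fst '' (G n)) := fun n =>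
    (hG1 n).image_of_measurable_injOn measurable_fst (hinj n)
  obtain ⟨g, hg⟩ : ∃ g : ℕ → X → Y, ∀ n x, g n x =
      if h : ∃ y, (x, y) ∈ G n then h.choose else y0 := ⟨_, fun _ _ => rfl⟩
  have hgG : ∀ n x y, (x, y) ∈ G n → g n x = y := by
    intro n x y h
    have hex : ∃ y, (x, y) ∈ G n := ⟨y, h⟩
    rw [hg, dif_pos hex]
    exact hG3 n _ _ _ hex.choose_spec h
  have hgG' : ∀ n x, x ∈ Prod.fst '' (G n) → (x, g n x) ∈ G n := by
    rintro n x ⟨⟨a, b⟩, h, rfl⟩
    rw [hgG n _ _ h]
    exact h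
  have hgm : ∀ n, Measurable (g n) := by
    intro n B hB
    have e : g n ⁻¹' B = (Prod.fst '' (G n ∩ Prod.snd ⁻¹' B)) ∪
        ({x | y0 ∈ B} \ (Prod.fst '' (G n))) := by
      ext x
      simp only [mem_preimage]
      by_cases h : ∃ y, (x, y) ∈ G n
      · obtain ⟨y, hy⟩ := h
        rw [hgG n _ _ hy]
        constructor
        · intro hh
          exact Or.inl ⟨(x, y), ⟨hy, hh⟩, rfl⟩
        · rintro (⟨⟨a, b⟩, ⟨h1, h2⟩, h3⟩ | ⟨h1, h2⟩)
          · simp only at h3
            subst h3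
            rw [hG3 n _ _ _ hy h1]
            exact h2
          · exact absurd ⟨(x, y), hy, rfl⟩ h2
      · rw [hg, dif_neg h]
        constructor
        · intro hh
          refine Or.inr ⟨hh, ?_⟩
          rintro ⟨⟨a, b⟩, h1, h2⟩
          simp only at h2
          subst h2
          exact h ⟨b, h1⟩
        · rintro (⟨⟨a, b⟩, ⟨h1, h2⟩, h3⟩ | ⟨h1, h2⟩)
          · simp only at h3
            subst h3
            exact absurd ⟨b, h1⟩ h
          · exact h1
    rw [e]
    refine MeasurableSet.union ?_ ((MeasurableSet.const _).diff (hD0 n))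
    exact ((hG1 n).inter (measurable_snd hB)).image_of_measurable_injOn measurable_fst
      ((hinj n).mono inter_subset_left)
  refine ⟨g, fun n => (Prod.fst '' (G n)) \ ⋃ m ∈ Finset.range n,
    (Prod.fst '' (G m) ∩ {x | g m x = g n x}), hgm, ?_, ?_, ?_⟩
  · intro n
    refine (hD0 n).diff (Finset.measurableSet_biUnion _ fun m _ => (hD0 m).inter ?_)
    exact measurableSet_eq_fun (hgm m) (hgm n)
  · intro x y
    constructor
    · intro h
      rw [← hG2, mem_iUnion] at h
      have h' : ∃ n, x ∈ Prod.fst '' (G n) ∧ g n x = y := by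
        obtain ⟨n, hn⟩ := h
        exact ⟨n, ⟨(x, y), hn, rfl⟩, hgG n _ _ hn⟩
      refine ⟨Nat.find h', ⟨(Nat.find_spec h').1, ?_⟩, (Nat.find_spec h').2⟩
      simp only [Finset.mem_range, mem_iUnion, mem_inter_iff, mem_ofPred_eq, not_exists, not_and]
      intro m hm h1 h2
      exact Nat.find_min h' hm ⟨h1, h2.trans (Nat.find_spec h').2⟩
    · rintro ⟨n, ⟨h1, -⟩, h2⟩
      rw [← hG2, mem_iUnion]
      exact ⟨n, h2 ▸ hgG' n x h1⟩
  · intro x m n hm hn hmn
    rcases lt_trichotomy m n with h | h | h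
    · exfalso
      apply hn.2
      simp only [Finset.mem_range, mem_iUnion]
      exact ⟨m, h, hm.1, hmn⟩
    · exact h
    · exfalso
      apply hm.2
      simp only [Finset.mem_range, mem_iUnion]
      exact ⟨n, h, hn.1, hmn.symm⟩

/-- The projection of a Borel set with countable sections is Borel. -/
theorem proj {X Y : Type*} [MeasurableSpace X] [StandardBorelSpace X] [MeasurableSpace Y]
    [StandardBorelSpace Y] {R : Set (X × Y)} (hR : MeasurableSet R)
    (hc : ∀ x, {y | (x, y) ∈ R}.Countable) : MeasurableSet {x | ∃ y, (x, y) ∈ R} := by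
  classical
  by_cases hY : Nonempty Y
  · obtain ⟨y0⟩ := hY
    obtain ⟨g, D, h1, h2, h3, h4⟩ := enum y0 hR hc
    have e : {x | ∃ y, (x, y) ∈ R} = ⋃ n, D n := by
      ext x
      simp only [mem_ofPred_eq, mem_iUnion]
      constructor
      · rintro ⟨y, hy⟩
        obtain ⟨n, hn, -⟩ := (h3 _ _).1 hy
        exact ⟨n, hn⟩
      · rintro ⟨n, hn⟩
        exact ⟨g n x, (h3 _ _).2 ⟨n, hn, rfl⟩⟩
    rw [e]
    exact MeasurableSet.iUnion h2
  · have e : {x | ∃ y, (x, y) ∈ R} = ∅ := by
      ext x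
      simp only [mem_ofPred_eq, mem_empty_iff_false, iff_false]
      rintro ⟨y, -⟩
      exact hY ⟨y⟩
    rw [e]
    exact MeasurableSet.empty

/-- Gluing measurable functions along a countable measurable cover. -/
theorem measurable_glue {X Z ι : Type*} [MeasurableSpace X] [MeasurableSpace Z] [Countable ι]
    (A : ι → Set X) (hA : ∀ i, MeasurableSet (A i)) (hcov : ∀ x, ∃ i, x ∈ A i)
    (F : ι → X → Z) (hF : ∀ i, Measurable (F i)) (f : X → Z) (hf : ∀ i, ∀ x ∈ A i, f x = F i x) :
    Measurable f := by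
  intro S hS
  have e : f ⁻¹' S = ⋃ i, (A i ∩ F i ⁻¹' S) := by
    ext x
    simp only [mem_preimage, mem_iUnion, mem_inter_iff]
    constructor
    · intro h
      obtain ⟨i, hi⟩ := hcov x
      exact ⟨i, hi, by rwa [← hf i x hi]⟩
    · rintro ⟨i, hi, h⟩
      rwa [hf i x hi]
  rw [e]
  exact MeasurableSet.iUnion fun i => (hA i).inter (hF i hS)

/-- The finite sections of a Borel relation are, piecewise on a countable Borel partition, listed by
finitely many Borel functions. -/
theorem fin_enum {X Y : Type*} [MeasurableSpace X] [StandardBorelSpace X] [MeasurableSpace Y]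
    [StandardBorelSpace Y] [Nonempty Y] (s : X → Finset Y)
    (hs : MeasurableSet {p : X × Y | p.2 ∈ s p.1}) :
    ∃ (g : ℕ → X → Y) (A : Finset ℕ → Set X), (∀ n, Measurable (g n)) ∧
      (∀ T, MeasurableSet (A T)) ∧ (∀ x, ∃ T, x ∈ A T) ∧
      ∀ T, ∀ x ∈ A T, (∀ y, y ∈ s x ↔ ∃ n ∈ T, g n x = y) ∧ InjOn (fun n => g n x) (T : Set ℕ) := by
  classical
  obtain ⟨y0⟩ := ‹Nonempty Y›
  obtain ⟨g, D, h1, h2, h3, h4⟩ := enum y0 hs (fun x => by
    exact (s x).countable_toSet)
  refine ⟨g, fun T => {x | ∀ n, x ∈ D n ↔ n ∈ T}, h1, ?_, ?_, ?_⟩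
  · intro T
    have e : {x | ∀ n, x ∈ D n ↔ n ∈ T} = ⋂ n, {x | x ∈ D n ↔ n ∈ T} := by
      ext x; simp
    beta_reduce
    rw [e]
    refine MeasurableSet.iInter fun n => ?_
    by_cases h : n ∈ T
    · have e2 : {x | x ∈ D n ↔ n ∈ T} = D n := by ext x; simp [h]
      rw [e2]; exact h2 n
    · have e2 : {x | x ∈ D n ↔ n ∈ T} = (D n)ᶜ := by ext x; simp [h]
      rw [e2]; exact (h2 n).compl
  · intro x
    have hfin : {n | x ∈ D n}.Finite := by
      refine Set.Finite.of_finite_image ((s x).finite_toSet.subset ?_) (f := fun n => g n x) ?_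
      · rintro _ ⟨n, hn, rfl⟩
        exact (h3 x (g n x)).2 ⟨n, hn, rfl⟩
      · intro m hm n hn hmn
        exact h4 x m n hm hn hmn
    refine ⟨hfin.toFinset, fun n => ?_⟩
    simp
  · intro T x hx
    constructor
    · intro y
      have := h3 x y
      simp only [mem_ofPred_eq] at this
      rw [this]
      constructor
      · rintro ⟨n, hn, h⟩
        exact ⟨n, (hx n).1 hn, h⟩
      · rintro ⟨n, hn, h⟩
        exact ⟨n, (hx n).2 hn, h⟩
    · intro m hm n hn hmn
      exact h4 x m n ((hx m).2 hm) ((hx n).2 hn) hmn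

theorem measurable_fsum {X Y : Type*} [MeasurableSpace X] [StandardBorelSpace X]
    [MeasurableSpace Y] [StandardBorelSpace Y] (s : X → Finset Y)
    (hs : MeasurableSet {p : X × Y | p.2 ∈ s p.1}) (h : X → Y → ℝ)
    (hh : Measurable fun p : X × Y => h p.1 p.2) : Measurable fun x => ∑ y ∈ s x, h x y := by
  classical
  by_cases hY : Nonempty Y
  · obtain ⟨g, A, h1, h2, h3, h4⟩ := fin_enum s hs
    refine measurable_glue A h2 h3 (fun T x => ∑ n ∈ T, h x (g n x)) ?_ _ ?_
    · intro T
      exact Finset.measurable_fun_sum _ fun n _ => hh.comp (measurable_id.prodMk (h1 n))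
    · intro T x hx
      obtain ⟨h5, h6⟩ := h4 T x hx
      have e : s x = T.image (fun n => g n x) := by
        ext y; rw [h5 y]; simp
      show ∑ y ∈ s x, h x y = _
      rw [e, Finset.sum_image h6]
  · have : (fun x => ∑ y ∈ s x, h x y) = fun _ => 0 := by
      funext x
      apply Finset.sum_eq_zero
      intro y _
      exact absurd ⟨y⟩ hY
    rw [this]
    exact measurable_const

theorem measurable_fprod {X Y : Type*} [MeasurableSpace X] [StandardBorelSpace X]
    [MeasurableSpace Y] [StandardBorelSpace Y] (s : X → Finset Y)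
    (hs : MeasurableSet {p : X × Y | p.2 ∈ s p.1}) (h : X → Y → ℝ)
    (hh : Measurable fun p : X × Y => h p.1 p.2) : Measurable fun x => ∏ y ∈ s x, h x y := by
  classical
  by_cases hY : Nonempty Y
  · obtain ⟨g, A, h1, h2, h3, h4⟩ := fin_enum s hs
    refine measurable_glue A h2 h3 (fun T x => ∏ n ∈ T, h x (g n x)) ?_ _ ?_
    · intro T
      exact Finset.measurable_fun_prod _ fun n _ => hh.comp (measurable_id.prodMk (h1 n))
    · intro T x hx
      obtain ⟨h5, h6⟩ := h4 T x hx
      have e : s x = T.image (fun n => g n x) := by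
        ext y; rw [h5 y]; simp
      show ∏ y ∈ s x, h x y = _
      rw [e, Finset.prod_image h6]
  · have : (fun x => ∏ y ∈ s x, h x y) = fun _ => 1 := by
      funext x
      apply Finset.prod_eq_one
      intro y _
      exact absurd ⟨y⟩ hY
    rw [this]
    exact measurable_const

end Pool.Agent.Helper105
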