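import Mathlib

set_option autoImplicit false

namespace Pool.Agent.Helper105

open MeasureTheory
open scoped Classical ENNReal

/-- The natural Borel structure on the finite subsets of a measurable space `Y`: a family of finite
subsets of `Y` is Borel if, for every `n`, the set of all `n`-tuples that list a member of the
family (repetitions allowed) is Borel in `Y ^ n`. -/
@[reducible] noncomputable def finsetBorel (Y : Type*) [MeasurableSpace Y] : MeasurableSpace (Finset Y) where
  MeasurableSet' 𝒜 := ∀ n : ℕ, MeasurableSet {v : Fin n → Y | Finset.univ.image v ∈ 𝒜}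
  measurableSet_empty := fun n => by
    have : {v : Fin n → Y | Finset.univ.image v ∈ (∅ : Set (Finset Y))} = ∅ := by
      ext v; simp
    rw [this]; exact MeasurableSet.empty
  measurableSet_compl := fun s hs n => (hs n).compl
  measurableSet_iUnion := fun s hs n => by
    have : {v : Fin n → Y | Finset.univ.image v ∈ ⋃ i, s i} =
        ⋃ i, {v : Fin n → Y | Finset.univ.image v ∈ s i} := by
      ext v; simp
    rw [this]; exact MeasurableSet.iUnion fun i => hs i n

/-- The domain of a set `B` of finite partial maps from `X` to `k` (finite partial maps are given by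
their graphs, finite subsets of `X × Fin k`). -/
noncomputable def dom {X : Type*} {k : ℕ} (B : Finset (Finset (X × Fin k))) : Finset X :=
  B.biUnion fun φ => φ.image Prod.fst

/-- `B` is a bad `k`-event over `X`: a nonempty finite set of finite partial maps from `X` to `k`,
all with the same domain. -/
structure IsBadEvent {X : Type*} {k : ℕ} (B : Finset (Finset (X × Fin k))) : Prop where
  nonempty : B.Nonempty
  isMap : ∀ φ ∈ B, ∀ x a b, (x, a) ∈ φ → (x, b) ∈ φ → a = b
  sameDom : ∀ φ ∈ B, φ.image Prod.fst = dom B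

/-- The probability of a bad `k`-event: the number of its members over `k` to the power of the size
of its domain. -/
noncomputable def prob {X : Type*} {k : ℕ} (B : Finset (Finset (X × Fin k))) : ℝ :=
  (B.card : ℝ) / (k : ℝ) ^ (dom B).card

/-- The neighbourhood of `B` in `𝓑`: the other members of `𝓑` whose domains meet that of `B`. -/
def nbhd {X : Type*} {k : ℕ} (𝓑 : Set (Finset (Finset (X × Fin k))))
    (B : Finset (Finset (X × Fin k))) : Set (Finset (Finset (X × Fin k))) :=
  {B' | B' ∈ 𝓑 ∧ B' ≠ B ∧ ∃ x, x ∈ dom B' ∧ x ∈ dom B}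

/-- `p(𝓑)`, the supremum of the probabilities. -/
noncomputable def pSup {X : Type*} {k : ℕ} (𝓑 : Set (Finset (Finset (X × Fin k)))) : ℝ≥0∞ :=
  ⨆ B ∈ 𝓑, ENNReal.ofReal (prob B)

/-- `d(𝓑)`, the supremum of the degrees. -/
noncomputable def dSup {X : Type*} {k : ℕ} (𝓑 : Set (Finset (Finset (X × Fin k)))) : ℝ≥0∞ :=
  ⨆ B ∈ 𝓑, ((nbhd 𝓑 B).encard : ℝ≥0∞)

/-- Correctness for the symmetric Lovasz Local Lemma: `e * p * (d + 1) < 1`. -/
def CorrectSLLL {X : Type*} {k : ℕ} (𝓑 : Set (Finset (Finset (X × Fin k)))) : Prop :=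
  ENNReal.ofReal (Real.exp 1) * pSup 𝓑 * (dSup 𝓑 + 1) < 1

/-- Correctness for the general (asymmetric) Lovasz Local Lemma with weights `ω`, all
neighbourhoods being finite. -/
def CorrectLLL {X : Type*} {k : ℕ} (𝓑 : Set (Finset (Finset (X × Fin k))))
    (ω : Finset (Finset (X × Fin k)) → ℝ) : Prop :=
  ∀ B ∈ 𝓑, 0 ≤ ω B ∧ ω B < 1 ∧ (nbhd 𝓑 B).Finite ∧
    prob B ≤ ω B * ∏ᶠ B' ∈ nbhd 𝓑 B, (1 - ω B')

/-- `𝓑` is a Borel `k`-instance over `X`. -/
def IsBorelInstance {X : Type*} [MeasurableSpace X] {k : ℕ}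
    (𝓑 : Set (Finset (Finset (X × Fin k)))) : Prop :=
  (∀ B ∈ 𝓑, IsBadEvent B) ∧
    @MeasurableSet _ (@finsetBorel _ (@finsetBorel (X × Fin k) inferInstance)) 𝓑

/-- The function `ω` on sets of finite partial maps is Borel. -/
def BorelWeight {X : Type*} [MeasurableSpace X] {k : ℕ}
    (ω : Finset (Finset (X × Fin k)) → ℝ) : Prop :=
  @Measurable _ _ (@finsetBorel _ (@finsetBorel (X × Fin k) inferInstance)) _ ω

/-- The defect of `f`: the points in the domain of some partial map `φ ∈ B ∈ 𝓑` extended by `f`. -/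
def defect {X : Type*} {k : ℕ} (f : X → Fin k) (𝓑 : Set (Finset (Finset (X × Fin k)))) : Set X :=
  {x | ∃ B ∈ 𝓑, ∃ φ ∈ B, x ∈ φ.image Prod.fst ∧ ∀ q ∈ φ, f q.1 = q.2}

/-- The points that lie in the domains of exactly the same members of `𝓑` as `x`. -/
def twins {X : Type*} {k : ℕ} (𝓑 : Set (Finset (Finset (X × Fin k)))) (x : X) : Set X :=
  {y | ∀ B ∈ 𝓑, x ∈ dom B ↔ y ∈ dom B}

/-- The incidence graph of `𝓑` after points lying in the same domains have been identified: it joins
the class of `x` and the event `B` when `B ∈ 𝓑` and `x ∈ dom B`. -/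
def incidence {X : Type*} {k : ℕ} (𝓑 : Set (Finset (Finset (X × Fin k)))) :
    SimpleGraph (Set X ⊕ Finset (Finset (X × Fin k))) :=
  SimpleGraph.fromRel fun u v => ∃ B ∈ 𝓑, ∃ x ∈ dom B, u = Sum.inl (twins 𝓑 x) ∧ v = Sum.inr B

/-- `x` and `y` are joined by a chain of points, consecutive ones lying in a common domain. -/
def Joined {X : Type*} {k : ℕ} (𝓑 : Set (Finset (Finset (X × Fin k)))) : X → X → Prop :=
  Relation.EqvGen fun x y => ∃ B ∈ 𝓑, x ∈ dom B ∧ y ∈ dom B

/-- The equivalence relation `E` is `μ`-hyperfinite: on an `E`-invariant Borel set of full measure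
it is an increasing union of Borel equivalence relations with finite classes. -/
def MuHyperfinite {X : Type*} [MeasurableSpace X] (μ : Measure X) (E : X → X → Prop) : Prop :=
  ∃ Y : Set X, MeasurableSet Y ∧ μ Yᶜ = 0 ∧ (∀ x y, E x y → x ∈ Y → y ∈ Y) ∧
    ∃ F : ℕ → X → X → Prop, (∀ n, Equivalence (F n)) ∧
      (∀ n, MeasurableSet {p : X × X | F n p.1 p.2}) ∧ (∀ n x, {y | F n x y}.Finite) ∧
      (∀ n x y, F n x y → F (n + 1) x y) ∧ ∀ x ∈ Y, ∀ y, E x y ↔ ∃ n, F n x y

end Pool.Agent.Helper105
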