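import Mathlib
import Pool.Agent.Helper105_Tree.Defs

set_option autoImplicit false

namespace Pool.Agent.Helper105

open MeasureTheory Set

attribute [-instance] Finset.instMeasurableSpace

theorem sb_of_embedding {α β : Type*} [MeasurableSpace α] [MeasurableSpace β]
    [StandardBorelSpace β] {h : α → β} (hh : MeasurableEmbedding h) : StandardBorelSpace α := by
  have hr : StandardBorelSpace (range h) := hh.measurableSet_range.standardBorel
  let e := hh.equivRange
  let _ := upgradeStandardBorel (range h)
  refine ⟨⟨TopologicalSpace.induced e inferInstance, ?_, e.toEquiv.polishSpace_induced⟩⟩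
  refine @BorelSpace.mk α (TopologicalSpace.induced e inferInstance) _ ?_
  refine e.measurableEmbedding.comap_eq.symm.trans ?_
  rw [borel_comap]
  congr 1
  exact BorelSpace.measurable_eq

/-- A countable family of Borel sets separating points from finite sets. -/
theorem exists_sep (Y : Type*) [MeasurableSpace Y] [StandardBorelSpace Y] :
    ∃ A : ℕ → Set Y, (∀ i, MeasurableSet (A i)) ∧
      ∀ (F : Finset Y) (y : Y), y ∉ F → ∃ i, y ∈ A i ∧ ∀ z ∈ F, z ∉ A i := by
  let _ := upgradeStandardBorel Y
  obtain ⟨b, hb⟩ : ∃ b : Set (Set Y), b = TopologicalSpace.countableBasis Y := ⟨_, rfl⟩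
  have hbb : TopologicalSpace.IsTopologicalBasis b := by
    rw [hb]; exact TopologicalSpace.isBasis_countableBasis Y
  have hbc : b.Countable := by rw [hb]; exact TopologicalSpace.countable_countableBasis Y
  obtain ⟨A, hA⟩ : ∃ A : ℕ → Set Y, insert ∅ b = range A :=
    (hbc.insert ∅).exists_eq_range (insert_nonempty _ _)
  refine ⟨A, ?_, ?_⟩
  · intro i
    have : A i ∈ insert ∅ b := hA ▸ mem_range_self i
    rcases this with h | h
    · rw [h]; exact MeasurableSet.empty
    · exact (hbb.isOpen h).measurableSet
  · intro F y hy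
    have ho : IsOpen ((F : Set Y)ᶜ) := F.finite_toSet.isClosed.isOpen_compl
    obtain ⟨U, hU, hyU, hUF⟩ := hbb.exists_subset_of_mem_open (a := y)
      (by simpa using hy) ho
    have : U ∈ range A := hA ▸ (mem_insert_of_mem _ hU)
    obtain ⟨i, rfl⟩ := this
    refine ⟨i, hyU, fun z hz hzA => ?_⟩
    exact hUF hzA hz

open scoped Classical in
theorem measurable_image (Y : Type*) [MeasurableSpace Y] (n : ℕ) :
    @Measurable _ _ _ (finsetBorel Y) (fun v : Fin n → Y => Finset.univ.image v) :=
  fun _ h𝒜 => h𝒜 n

theorem measurableSet_hit {Y : Type*} [MeasurableSpace Y] {A : Set Y} (hA : MeasurableSet A) :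
    @MeasurableSet _ (finsetBorel Y) {F : Finset Y | ∃ y ∈ F, y ∈ A} := by
  classical
  intro n
  have e : {v : Fin n → Y | Finset.univ.image v ∈ {F : Finset Y | ∃ y ∈ F, y ∈ A}} =
      ⋃ j, {v | v j ∈ A} := by
    ext v
    simp
  have := MeasurableSet.iUnion fun j : Fin n => (measurable_pi_apply (X := fun _ => Y) j) hA
  show MeasurableSet {v : Fin n → Y | Finset.univ.image v ∈ {F : Finset Y | ∃ y ∈ F, y ∈ A}}
  rw [e]
  exact this

theorem sb_finset (Y : Type*) [MeasurableSpace Y] [StandardBorelSpace Y] :
    @StandardBorelSpace (Finset Y) (finsetBorel Y) := by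
  classical
  let _ : MeasurableSpace (Finset Y) := finsetBorel Y
  obtain ⟨A, hA1, hA2⟩ := exists_sep Y
  let h : Finset Y → (ℕ → Prop) := fun F i => ∃ y ∈ F, y ∈ A i
  have hm : Measurable h := by
    refine measurable_pi_lambda _ fun i => ?_
    exact measurableSet_setOfPred.1 (measurableSet_hit (hA1 i))
  have hinj : Function.Injective h := by
    have key : ∀ F G : Finset Y, h F = h G → F ⊆ G := by
      intro F G hFG y hy
      by_contra hyG
      obtain ⟨i, hi1, hi2⟩ := hA2 G y hyG
      have h1 : h F i := ⟨y, hy, hi1⟩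
      rw [hFG] at h1
      obtain ⟨z, hz1, hz2⟩ := h1
      exact hi2 z hz1 hz2
    intro F G hFG
    exact Finset.Subset.antisymm (key _ _ hFG) (key _ _ hFG.symm)
  let φ : Y → ℝ := embeddingReal Y
  have hφ := measurableEmbedding_embeddingReal Y
  refine sb_of_embedding (h := h) ⟨hinj, hm, ?_⟩
  intro 𝒜 h𝒜
  have e : h '' 𝒜 = ⋃ n : ℕ, (fun v : Fin n → Y => h (Finset.univ.image v)) ''
      {v : Fin n → Y | Finset.univ.image v ∈ 𝒜 ∧ StrictMono fun i => φ (v i)} := by
    ext q
    simp only [mem_image, mem_iUnion, mem_ofPred_eq]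
    constructor
    · rintro ⟨F, hF, rfl⟩
      have hc : (F.image φ).card = F.card := Finset.card_image_of_injective _ hφ.injective
      let o := (F.image φ).orderEmbOfFin rfl
      have ho : ∀ i, ∃ y ∈ F, φ y = o i := by
        intro i
        exact Finset.mem_image.1 ((F.image φ).orderEmbOfFin_mem rfl i)
      choose v hv1 hv2 using ho
      have hFv : Finset.univ.image v = F := by
        apply Finset.Subset.antisymm
        · intro y hy
          simp only [Finset.mem_image, Finset.mem_univ, true_and] at hy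
          obtain ⟨i, rfl⟩ := hy
          exact hv1 i
        · intro y hy
          have : φ y ∈ Set.range o := by
            rw [Finset.range_orderEmbOfFin]
            simpa using ⟨y, hy, rfl⟩
          obtain ⟨i, hi⟩ := this
          simp only [Finset.mem_image, Finset.mem_univ, true_and]
          exact ⟨i, hφ.injective ((hv2 i).trans hi)⟩
      refine ⟨_, v, ⟨by rw [hFv]; exact hF, ?_⟩, by rw [hFv]⟩
      intro i j hij
      simp only [hv2]
      exact o.strictMono hij
    · rintro ⟨n, v, ⟨h1, h2⟩, rfl⟩
      exact ⟨_, h1, rfl⟩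
  rw [e]
  refine MeasurableSet.iUnion fun n => ?_
  refine MeasurableSet.image_of_measurable_injOn ?_ ?_ ?_
  · refine MeasurableSet.inter (h𝒜 n) ?_
    have e2 : {v : Fin n → Y | StrictMono fun i => φ (v i)} =
        ⋂ i, ⋂ j, {v : Fin n → Y | i < j → φ (v i) < φ (v j)} := by
      ext v
      simp [StrictMono]
    show MeasurableSet {v : Fin n → Y | StrictMono fun i => φ (v i)}
    rw [e2]
    refine MeasurableSet.iInter fun i => MeasurableSet.iInter fun j => ?_
    by_cases hij : i < j
    · simp only [hij, true_implies]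
      exact measurableSet_lt (hφ.measurable.comp (measurable_pi_apply i))
        (hφ.measurable.comp (measurable_pi_apply j))
    · simp [hij]
  · exact hm.comp (measurable_image Y n)
  · rintro v ⟨-, hv⟩ v' ⟨-, hv'⟩ hvv
    have h1 : Finset.univ.image v = Finset.univ.image v' := hinj hvv
    have h2 : Set.range (fun i => φ (v i)) = Set.range (fun i => φ (v' i)) := by
      have e1 : Set.range (fun i => φ (v i)) = φ '' ((Finset.univ.image v : Finset Y) : Set Y) := by
        ext r; simp
      have e2 : Set.range (fun i => φ (v' i)) =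
          φ '' ((Finset.univ.image v' : Finset Y) : Set Y) := by
        ext r; simp
      rw [e1, e2, h1]
    have h3 := (StrictMono.range_inj hv hv').1 h2
    funext i
    exact hφ.injective (congrFun h3 i)

theorem measurableSet_mem (Y : Type*) [MeasurableSpace Y] [StandardBorelSpace Y] :
    @MeasurableSet _ (@Prod.instMeasurableSpace _ _ (finsetBorel Y) _)
      {p : Finset Y × Y | p.2 ∈ p.1} := by
  classical
  let _ : MeasurableSpace (Finset Y) := finsetBorel Y
  obtain ⟨A, hA1, hA2⟩ := exists_sep Y
  have e : {p : Finset Y × Y | p.2 ∈ p.1} =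
      ⋂ i, {p : Finset Y × Y | p.2 ∈ A i → ∃ y ∈ p.1, y ∈ A i} := by
    ext ⟨F, y⟩
    simp only [mem_ofPred_eq, mem_iInter]
    constructor
    · intro h i hi
      exact ⟨y, h, hi⟩
    · intro h
      by_contra hy
      obtain ⟨i, h1, h2⟩ := hA2 F y hy
      obtain ⟨z, h3, h4⟩ := h i h1
      exact h2 z h3 h4
  rw [e]
  refine MeasurableSet.iInter fun i => ?_
  have e2 : {p : Finset Y × Y | p.2 ∈ A i → ∃ y ∈ p.1, y ∈ A i} =
      (Prod.snd ⁻¹' (A i)ᶜ) ∪ (Prod.fst ⁻¹' {F | ∃ y ∈ F, y ∈ A i}) := by
    ext ⟨F, y⟩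
    simp only [mem_ofPred_eq, mem_union, mem_preimage, mem_compl_iff]
    tauto
  rw [e2]
  exact (measurable_snd (hA1 i).compl).union (measurable_fst (measurableSet_hit (hA1 i)))

end Pool.Agent.Helper105
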