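import Mathlib
import Pool.Agent.Helper105_Tree.Defs
import Pool.Agent.Helper105_Tree.Enum
import Pool.Agent.Helper105_Tree.Fin

set_option autoImplicit false

namespace Pool.Agent.Helper105

open MeasureTheory Set
open scoped Classical

attribute [-instance] Finset.instMeasurableSpace
attribute [local instance] finsetBorel sb_finset

theorem mem_dom {X : Type*} {k : ℕ} {B : Finset (Finset (X × Fin k))} {x : X} :
    x ∈ dom B ↔ ∃ φ ∈ B, ∃ a, (x, a) ∈ φ := by
  simp only [dom, Finset.mem_biUnion, Finset.mem_image, Prod.exists, exists_and_right,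
    exists_eq_right]

theorem val_exists {X : Type*} {k : ℕ} {B : Finset (Finset (X × Fin k))} (hB : IsBadEvent B)
    {x : X} (hx : x ∈ dom B) {φ : Finset (X × Fin k)} (hφ : φ ∈ B) : ∃ a, (x, a) ∈ φ := by
  rw [← hB.sameDom φ hφ] at hx
  simp only [Finset.mem_image, Prod.exists, exists_and_right, exists_eq_right] at hx
  exact hx

theorem fst_mem_dom {X : Type*} {k : ℕ} {B : Finset (Finset (X × Fin k))}
    {φ : Finset (X × Fin k)} (hφ : φ ∈ B) {q : X × Fin k} (hq : q ∈ φ) : q.1 ∈ dom B :=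
  mem_dom.2 ⟨φ, hφ, q.2, hq⟩

section
variable {X : Type*} [MeasurableSpace X] [StandardBorelSpace X] {k : ℕ}

theorem dom_meas : MeasurableSet {p : Finset (Finset (X × Fin k)) × X | p.2 ∈ dom p.1} := by
  have e : {p : Finset (Finset (X × Fin k)) × X | p.2 ∈ dom p.1} =
      {p | ∃ φ, (p, φ) ∈ {r : (Finset (Finset (X × Fin k)) × X) × Finset (X × Fin k) |
        r.2 ∈ r.1.1 ∧ ∃ a, (r.1.2, a) ∈ r.2}} := by
    ext ⟨B, x⟩
    simp only [mem_ofPred_eq]
    exact mem_dom
  rw [e]
  refine proj ?_ ?_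
  · have e2 : {r : (Finset (Finset (X × Fin k)) × X) × Finset (X × Fin k) |
        r.2 ∈ r.1.1 ∧ ∃ a, (r.1.2, a) ∈ r.2} =
        ((fun r : (Finset (Finset (X × Fin k)) × X) × Finset (X × Fin k) => (r.1.1, r.2)) ⁻¹'
          {p | p.2 ∈ p.1}) ∩ ⋃ a : Fin k,
        ((fun r : (Finset (Finset (X × Fin k)) × X) × Finset (X × Fin k) => (r.2, (r.1.2, a))) ⁻¹'
          {p | p.2 ∈ p.1}) := by
      ext ⟨⟨B, x⟩, φ⟩
      simp
    rw [e2]
    refine MeasurableSet.inter ?_ (MeasurableSet.iUnion fun a => ?_)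
    · exact (by fun_prop : Measurable
        (fun r : (Finset (Finset (X × Fin k)) × X) × Finset (X × Fin k) => (r.1.1, r.2)))
        (measurableSet_mem _)
    · exact (by fun_prop : Measurable
        (fun r : (Finset (Finset (X × Fin k)) × X) × Finset (X × Fin k) => (r.2, (r.1.2, a))))
        (measurableSet_mem _)
  · rintro ⟨B, x⟩
    exact (B.finite_toSet.subset fun φ hφ => hφ.1).countable

theorem inc_meas {𝓑 : Set (Finset (Finset (X × Fin k)))} (h𝓑 : MeasurableSet 𝓑) :
    MeasurableSet {p : X × Finset (Finset (X × Fin k)) | p.2 ∈ 𝓑 ∧ p.1 ∈ dom p.2} := by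
  have e : {p : X × Finset (Finset (X × Fin k)) | p.2 ∈ 𝓑 ∧ p.1 ∈ dom p.2} =
      Prod.snd ⁻¹' 𝓑 ∩ Prod.swap ⁻¹' {p | p.2 ∈ dom p.1} := by
    ext ⟨x, B⟩
    simp
  rw [e]
  exact (measurable_snd h𝓑).inter (measurable_swap dom_meas)

theorem exists_color {𝓑 : Set (Finset (Finset (X × Fin k)))} (h𝓑 : MeasurableSet 𝓑)
    (hfin : ∀ x : X, {B | B ∈ 𝓑 ∧ x ∈ dom B}.Finite) :
    ∃ c : X → ℕ, Measurable c ∧ ∀ B ∈ 𝓑, ∀ x ∈ dom B, ∀ y ∈ dom B, c x = c y → x = y := by
  obtain ⟨A, hA1, hA2⟩ := exists_sep X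
  obtain ⟨N, hN⟩ : ∃ N : X → X → Prop, ∀ x y, N x y ↔
      (x ≠ y ∧ ∃ B, B ∈ 𝓑 ∧ x ∈ dom B ∧ y ∈ dom B) := ⟨_, fun _ _ => Iff.rfl⟩
  have hNfin : ∀ x, {y | N x y}.Finite := by
    intro x
    refine ((hfin x).biUnion (t := fun B => (dom B : Set X)) fun B _ => (dom B).finite_toSet).subset
      ?_
    intro y hy
    obtain ⟨-, B, h1, h2, h3⟩ := (hN x y).1 hy
    simp only [mem_iUnion]
    exact ⟨B, ⟨h1, h2⟩, h3⟩
  have hNm : MeasurableSet {p : X × X | N p.1 p.2} := by
    have e : {p : X × X | N p.1 p.2} = {p : X × X | p.1 = p.2}ᶜ ∩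
        {p | ∃ B, (p, B) ∈ {r : (X × X) × Finset (Finset (X × Fin k)) |
          r.2 ∈ 𝓑 ∧ r.1.1 ∈ dom r.2 ∧ r.1.2 ∈ dom r.2}} := by
      ext ⟨x, y⟩
      simp only [mem_ofPred_eq, hN, mem_inter_iff, mem_compl_iff]
    rw [e]
    refine MeasurableSet.inter (measurableSet_eq_fun measurable_fst measurable_snd).compl
      (proj ?_ ?_)
    · have e2 : {r : (X × X) × Finset (Finset (X × Fin k)) |
          r.2 ∈ 𝓑 ∧ r.1.1 ∈ dom r.2 ∧ r.1.2 ∈ dom r.2} =
          ((fun r : (X × X) × Finset (Finset (X × Fin k)) => (r.1.1, r.2)) ⁻¹'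
            {p | p.2 ∈ 𝓑 ∧ p.1 ∈ dom p.2}) ∩
          ((fun r : (X × X) × Finset (Finset (X × Fin k)) => (r.1.2, r.2)) ⁻¹'
            {p | p.2 ∈ 𝓑 ∧ p.1 ∈ dom p.2}) := by
        ext ⟨⟨x, y⟩, B⟩
        simp only [mem_ofPred_eq, mem_inter_iff, mem_preimage]
        tauto
      rw [e2]
      exact ((by fun_prop : Measurable
        (fun r : (X × X) × Finset (Finset (X × Fin k)) => (r.1.1, r.2))) (inc_meas h𝓑)).inter
        ((by fun_prop : Measurable
        (fun r : (X × X) × Finset (Finset (X × Fin k)) => (r.1.2, r.2))) (inc_meas h𝓑))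
    · rintro ⟨x, y⟩
      exact ((hfin x).subset fun B hB => ⟨hB.1, hB.2.1⟩).countable
  have hex : ∀ x, ∃ i, x ∈ A i ∧ ∀ z, N x z → z ∉ A i := by
    intro x
    obtain ⟨i, h1, h2⟩ := hA2 (hNfin x).toFinset x (by
      simp only [Finite.mem_toFinset, mem_ofPred_eq]
      intro h
      exact ((hN x x).1 h).1 rfl)
    exact ⟨i, h1, fun z hz => h2 z (by simpa using hz)⟩
  refine ⟨fun x => Nat.find (hex x), measurable_find hex fun i => ?_, ?_⟩
  · have e : {x | x ∈ A i ∧ ∀ z, N x z → z ∉ A i} =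
        A i ∩ {x | ∃ z, (x, z) ∈ {p : X × X | N p.1 p.2 ∧ p.2 ∈ A i}}ᶜ := by
      ext x
      simp only [mem_ofPred_eq, mem_inter_iff, mem_compl_iff, not_exists, not_and]
    rw [e]
    refine (hA1 i).inter (MeasurableSet.compl (proj ?_ ?_))
    · exact hNm.inter (measurable_snd (hA1 i))
    · intro x
      exact ((hNfin x).subset fun z hz => hz.1).countable
  · intro B hB x hx y hy hxy
    by_contra hne
    have h1 := Nat.find_spec (hex x)
    have h2 := Nat.find_spec (hex y)
    simp only at hxy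
    rw [hxy] at h1
    exact h1.2 y ((hN x y).2 ⟨hne, B, hB, hx, hy⟩) h2.1

/-- Number of members of `B` agreeing with `f` on the points of colour `< n`. -/
noncomputable def cnt {X : Type*} {k : ℕ} (c : X → ℕ) (f : X → Fin k) (n : ℕ)
    (B : Finset (Finset (X × Fin k))) : ℕ :=
  (B.filter fun φ => ∀ q ∈ φ, c q.1 < n → f q.1 = q.2).card

/-- Conditional probability of `B` once the points of colour `< n` are fixed by `f`. -/
noncomputable def PP {X : Type*} {k : ℕ} (c : X → ℕ) (f : X → Fin k) (n : ℕ)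
    (B : Finset (Finset (X × Fin k))) : ℝ :=
  (cnt c f n B : ℝ) / (k : ℝ) ^ ((dom B).filter fun y => n ≤ c y).card

def upd {X : Type*} {k : ℕ} (c : X → ℕ) (f : X → Fin k) (n : ℕ) (t : Fin k) : X → Fin k :=
  fun y => if c y = n then t else f y

/-- the accumulated ratio of `B` along the class of `a`. -/
noncomputable def GG {X : Type*} {k : ℕ} (ℓ : X → X) (c : X → ℕ) (f : X → Fin k) (n : ℕ)
    (B : Finset (Finset (X × Fin k))) (a : X) : ℝ :=
  ∏ y ∈ dom B, if ℓ y = a ∧ c y < n then PP c f (c y + 1) B / PP c f (c y) B else 1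

theorem PP_nonneg {X : Type*} {k : ℕ} (c : X → ℕ) (f : X → Fin k) (n : ℕ)
    (B : Finset (Finset (X × Fin k))) : 0 ≤ PP c f n B := by
  unfold PP; positivity

theorem GG_nonneg {X : Type*} {k : ℕ} (ℓ : X → X) (c : X → ℕ) (f : X → Fin k) (n : ℕ)
    (B : Finset (Finset (X × Fin k))) (a : X) : 0 ≤ GG ℓ c f n B a := by
  unfold GG
  refine Finset.prod_nonneg fun y _ => ?_
  split_ifs
  · exact div_nonneg (PP_nonneg _ _ _ _) (PP_nonneg _ _ _ _)
  · exact zero_le_one

theorem PP_congr {X : Type*} {k : ℕ} {c : X → ℕ} {f g : X → Fin k} {n : ℕ}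
    {B : Finset (Finset (X × Fin k))} (h : ∀ y ∈ dom B, c y < n → f y = g y) :
    PP c f n B = PP c g n B := by
  unfold PP cnt
  congr 3
  apply Finset.filter_congr
  intro φ hφ
  constructor
  · intro h1 q hq hc
    rw [← h q.1 (fst_mem_dom hφ hq) hc]
    exact h1 q hq hc
  · intro h1 q hq hc
    rw [h q.1 (fst_mem_dom hφ hq) hc]
    exact h1 q hq hc

theorem GG_congr {X : Type*} {k : ℕ} {ℓ : X → X} {c : X → ℕ} {f g : X → Fin k} {n : ℕ}
    {B : Finset (Finset (X × Fin k))} {a : X} (h : ∀ y ∈ dom B, c y < n → f y = g y) :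
    GG ℓ c f n B a = GG ℓ c g n B a := by
  unfold GG
  refine Finset.prod_congr rfl fun y hy => ?_
  split_ifs with h1
  · rw [PP_congr (f := f) (g := g) (fun z hz hc => h z hz (by omega)),
      PP_congr (f := f) (g := g) (fun z hz hc => h z hz (by omega))]
  · rfl

theorem avg {X : Type*} {k : ℕ} (hk : 0 < k) {c : X → ℕ} {f : X → Fin k} {n : ℕ}
    {B : Finset (Finset (X × Fin k))} (hB : IsBadEvent B)
    (hc : ∀ x ∈ dom B, ∀ y ∈ dom B, c x = c y → x = y) {x : X} (hx : x ∈ dom B) (hxn : c x = n) :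
    ∑ t, PP c (upd c f n t) (n + 1) B = k * PP c f n B := by
  have hcnt : cnt c f n B = ∑ t, cnt c (upd c f n t) (n + 1) B := by
    unfold cnt
    rw [← Finset.card_biUnion]
    · congr 1
      ext φ
      simp only [Finset.mem_filter, Finset.mem_biUnion, Finset.mem_univ, true_and]
      constructor
      · rintro ⟨h1, h2⟩
        obtain ⟨a, ha⟩ := val_exists hB hx h1
        refine ⟨a, h1, fun q hq hqc => ?_⟩
        by_cases h3 : c q.1 = n
        · have h4 : q.1 = x := hc _ (fst_mem_dom h1 hq) _ hx (h3.trans hxn.symm)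
          rw [upd, if_pos h3]
          refine hB.isMap φ h1 x a q.2 ha ?_
          rw [← h4]; exact hq
        · rw [upd, if_neg h3]
          exact h2 q hq (by omega)
      · rintro ⟨t, h1, h2⟩
        refine ⟨h1, fun q hq hqc => ?_⟩
        have := h2 q hq (by omega)
        rwa [upd, if_neg (by omega)] at this
    · intro t _ t' _ htt
      rw [Function.onFun, Finset.disjoint_left]
      intro φ h1 h2
      simp only [Finset.mem_filter] at h1 h2
      obtain ⟨a, ha⟩ := val_exists hB hx h1.1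
      have h3 := h1.2 _ ha (by simp only; omega)
      have h4 := h2.2 _ ha (by simp only; omega)
      simp only [upd, if_pos hxn] at h3 h4
      exact htt (h3.trans h4.symm)
  have hfree : ((dom B).filter fun y => n ≤ c y).card =
      ((dom B).filter fun y => n + 1 ≤ c y).card + 1 := by
    have e : (dom B).filter (fun y => n ≤ c y) =
        insert x ((dom B).filter fun y => n + 1 ≤ c y) := by
      ext y
      simp only [Finset.mem_filter, Finset.mem_insert]
      constructor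
      · rintro ⟨h1, h2⟩
        by_cases h3 : y = x
        · exact Or.inl h3
        · refine Or.inr ⟨h1, ?_⟩
          have : c y ≠ n := fun h => h3 (hc y h1 x hx (h.trans hxn.symm))
          omega
      · rintro (rfl | ⟨h1, h2⟩)
        · exact ⟨hx, by omega⟩
        · exact ⟨h1, by omega⟩
    rw [e, Finset.card_insert_of_notMem]
    simp only [Finset.mem_filter, not_and]
    intro _
    omega
  have hk' : (k : ℝ) ≠ 0 := by exact_mod_cast hk.ne'
  unfold PP
  rw [← Finset.sum_div, hfree, pow_succ, hcnt]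
  push_cast
  field_simp

end

end Pool.Agent.Helper105
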