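import Mathlib
import Pool.Agent.Helper105_Tree.Defs

set_option autoImplicit false

namespace Pool.Agent.Helper105

open scoped Classical

/-- In a forest, a vertex has at most one neighbour closer to a given root. -/
theorem closer_unique {V : Type*} {G : SimpleGraph V} (hG : G.IsAcyclic) {r v u u' : V}
    (hr : G.Reachable r v) (hu : G.Adj v u) (hu' : G.Adj v u')
    (h : G.dist r u < G.dist r v) (h' : G.dist r u' < G.dist r v) : u = u' := by
  obtain ⟨p, hp, hpl⟩ := hr.exists_path_of_dist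
  have key : ∀ z, G.Adj v z → G.dist r z < G.dist r v → z = p.penultimate := by
    intro z hz hd
    obtain ⟨q, hq, hql⟩ := (hr.trans hz.reachable).exists_path_of_dist
    have hv : v ∉ q.support := by
      intro hv
      have h1 := SimpleGraph.dist_le (q.takeUntil v hv)
      have h2 := q.length_takeUntil_le hv
      omega
    exact hG.eq_penultimate_of_adj_end hp hz
      (hG.mem_support_of_ne_mem_support_of_adj_of_isPath hp hq hz hv)
  rw [key u hu h, key u' hu' h']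

variable {X : Type*} {k : ℕ} {𝓑 : Set (Finset (Finset (X × Fin k)))}

theorem mem_twins_self (x : X) : x ∈ twins 𝓑 x := fun _ _ => Iff.rfl

theorem twins_eq_iff (x y : X) : twins 𝓑 x = twins 𝓑 y ↔ ∀ B ∈ 𝓑, x ∈ dom B ↔ y ∈ dom B := by
  constructor
  · intro h
    have : y ∈ twins 𝓑 x := by rw [h]; exact mem_twins_self y
    exact this
  · intro h
    ext z
    constructor
    · intro hz B hB
      rw [← h B hB]; exact hz B hB
    · intro hz B hB
      rw [h B hB]; exact hz B hB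

theorem adj_inr_inl {B : Finset (Finset (X × Fin k))} {u : Set X} :
    (incidence 𝓑).Adj (Sum.inr B) (Sum.inl u) ↔ B ∈ 𝓑 ∧ ∃ x ∈ dom B, u = twins 𝓑 x := by
  rw [incidence, SimpleGraph.fromRel_adj]
  constructor
  · rintro ⟨-, ⟨B', hB', x, hx, h1, h2⟩ | ⟨B', hB', x, hx, h1, h2⟩⟩
    · simp at h1
    · simp only [Sum.inl.injEq] at h1
      simp only [Sum.inr.injEq] at h2
      subst h2
      exact ⟨hB', x, hx, h1⟩
  · rintro ⟨hB, x, hx, rfl⟩
    exact ⟨by simp, Or.inr ⟨B, hB, x, hx, rfl, rfl⟩⟩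

theorem adj_inl_inl {u v : Set X} : ¬ (incidence 𝓑).Adj (Sum.inl u) (Sum.inl v) := by
  rw [incidence, SimpleGraph.fromRel_adj]
  rintro ⟨-, ⟨B', hB', x, hx, h1, h2⟩ | ⟨B', hB', x, hx, h1, h2⟩⟩ <;> simp at h2

theorem adj_inr_inr {B B' : Finset (Finset (X × Fin k))} :
    ¬ (incidence 𝓑).Adj (Sum.inr B) (Sum.inr B') := by
  rw [incidence, SimpleGraph.fromRel_adj]
  rintro ⟨-, ⟨B', hB', x, hx, h1, h2⟩ | ⟨B', hB', x, hx, h1, h2⟩⟩ <;> simp at h1

theorem adj_of_mem {B : Finset (Finset (X × Fin k))} (hB : B ∈ 𝓑) {x : X} (hx : x ∈ dom B) :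
    (incidence 𝓑).Adj (Sum.inr B) (Sum.inl (twins 𝓑 x)) :=
  adj_inr_inl.2 ⟨hB, x, hx, rfl⟩

/-- Two distinct events of a tree-structured instance share at most one class of twins. -/
theorem share_unique (hG : (incidence 𝓑).IsAcyclic) {B B' : Finset (Finset (X × Fin k))}
    (hB : B ∈ 𝓑) (hB' : B' ∈ 𝓑) (hne : B ≠ B') {x y : X} (hx : x ∈ dom B) (hx' : x ∈ dom B')
    (hy : y ∈ dom B) (hy' : y ∈ dom B') : twins 𝓑 x = twins 𝓑 y := by
  by_contra hxy
  apply hne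
  have a1 := adj_of_mem hB hx
  have a2 := adj_of_mem hB' hx'
  have a3 := adj_of_mem hB hy
  have a4 := adj_of_mem hB' hy'
  have hr : (incidence 𝓑).Reachable (Sum.inl (twins 𝓑 x)) (Sum.inl (twins 𝓑 y)) :=
    a1.symm.reachable.trans a3.reachable
  have hd : 1 < (incidence 𝓑).dist (Sum.inl (twins 𝓑 x)) (Sum.inl (twins 𝓑 y)) :=
    hr.one_lt_dist_of_ne_of_not_adj (by simpa using hxy) adj_inl_inl
  have d1 : (incidence 𝓑).dist (Sum.inl (twins 𝓑 x)) (Sum.inr B) = 1 :=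
    SimpleGraph.dist_eq_one_iff_adj.2 a1.symm
  have d2 : (incidence 𝓑).dist (Sum.inl (twins 𝓑 x)) (Sum.inr B') = 1 :=
    SimpleGraph.dist_eq_one_iff_adj.2 a2.symm
  have := closer_unique hG hr a3.symm a4.symm (by rw [d1]; exact hd) (by rw [d2]; exact hd)
  simpa using this

/-- There is a walk of length `j` from `v` to the class of `r`. -/
def WL (𝓑 : Set (Finset (Finset (X × Fin k)))) (j : ℕ) (v : Set X ⊕ Finset (Finset (X × Fin k)))
    (r : X) : Prop :=
  ∃ p : (incidence 𝓑).Walk v (Sum.inl (twins 𝓑 r)), p.length = j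

theorem WL_zero_inl (x r : X) : WL 𝓑 0 (Sum.inl (twins 𝓑 x)) r ↔ twins 𝓑 x = twins 𝓑 r := by
  constructor
  · rintro ⟨p, hp⟩
    have := SimpleGraph.Walk.eq_of_length_eq_zero hp
    simpa using this
  · intro h
    unfold WL
    rw [h]
    exact ⟨SimpleGraph.Walk.nil, rfl⟩

theorem WL_zero_inr (B : Finset (Finset (X × Fin k))) (r : X) : ¬ WL 𝓑 0 (Sum.inr B) r := by
  rintro ⟨p, hp⟩
  have := SimpleGraph.Walk.eq_of_length_eq_zero hp
  simp at this

theorem WL_succ (j : ℕ) (v : Set X ⊕ Finset (Finset (X × Fin k))) (r : X) :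
    WL 𝓑 (j + 1) v r ↔ ∃ u, (incidence 𝓑).Adj v u ∧ WL 𝓑 j u r := by
  constructor
  · rintro ⟨p, hp⟩
    cases p with
    | nil => simp at hp
    | cons h q => exact ⟨_, h, q, by simpa using hp⟩
  · rintro ⟨u, h, q, hq⟩
    exact ⟨SimpleGraph.Walk.cons h q, by simp [hq]⟩

theorem WL_succ_inr (j : ℕ) {B : Finset (Finset (X × Fin k))} (hB : B ∈ 𝓑) (r : X) :
    WL 𝓑 (j + 1) (Sum.inr B) r ↔ ∃ x, x ∈ dom B ∧ WL 𝓑 j (Sum.inl (twins 𝓑 x)) r := by
  rw [WL_succ]
  constructor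
  · rintro ⟨u | B', h, h2⟩
    · obtain ⟨-, x, hx, rfl⟩ := adj_inr_inl.1 h
      exact ⟨x, hx, h2⟩
    · exact absurd h adj_inr_inr
  · rintro ⟨x, hx, h⟩
    exact ⟨_, adj_of_mem hB hx, h⟩

theorem WL_succ_inl (j : ℕ) (x r : X) :
    WL 𝓑 (j + 1) (Sum.inl (twins 𝓑 x)) r ↔ ∃ B, B ∈ 𝓑 ∧ x ∈ dom B ∧ WL 𝓑 j (Sum.inr B) r := by
  rw [WL_succ]
  constructor
  · rintro ⟨u | B', h, h2⟩
    · exact absurd h adj_inl_inl
    · obtain ⟨h3, y, hy, h4⟩ := adj_inr_inl.1 h.symm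
      exact ⟨B', h3, ((twins_eq_iff x y).1 h4 B' h3).2 hy, h2⟩
  · rintro ⟨B, hB, hx, h⟩
    exact ⟨_, (adj_of_mem hB hx).symm, h⟩

/-- `x` is closer to the root `r` than the event `B ∋ x`. -/
def Cl (𝓑 : Set (Finset (Finset (X × Fin k)))) (r : X) (B : Finset (Finset (X × Fin k)))
    (x : X) : Prop :=
  B ∈ 𝓑 ∧ x ∈ dom B ∧ ∃ j, WL 𝓑 j (Sum.inl (twins 𝓑 x)) r ∧ ∀ i ≤ j, ¬ WL 𝓑 i (Sum.inr B) r

theorem Cl_iff {r : X} {B : Finset (Finset (X × Fin k))} (hB : B ∈ 𝓑) {x : X} (hx : x ∈ dom B)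
    (hr : (incidence 𝓑).Reachable (Sum.inl (twins 𝓑 r)) (Sum.inl (twins 𝓑 x))) :
    Cl 𝓑 r B x ↔ (incidence 𝓑).dist (Sum.inl (twins 𝓑 r)) (Sum.inl (twins 𝓑 x)) <
      (incidence 𝓑).dist (Sum.inl (twins 𝓑 r)) (Sum.inr B) := by
  have hrB : (incidence 𝓑).Reachable (Sum.inl (twins 𝓑 r)) (Sum.inr B) :=
    hr.trans (adj_of_mem hB hx).symm.reachable
  constructor
  · rintro ⟨-, -, j, ⟨p, hp⟩, h2⟩
    obtain ⟨q, hq⟩ := hrB.symm.exists_walk_length_eq_dist
    have h3 := SimpleGraph.dist_le p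
    rw [SimpleGraph.dist_comm, SimpleGraph.dist_comm (v := Sum.inr B)]
    by_contra hcon
    push Not at hcon
    exact h2 q.length (by omega) ⟨q, rfl⟩
  · intro h
    refine ⟨hB, hx, (incidence 𝓑).dist (Sum.inl (twins 𝓑 r)) (Sum.inl (twins 𝓑 x)), ?_, ?_⟩
    · obtain ⟨q, hq⟩ := hr.symm.exists_walk_length_eq_dist
      refine ⟨q, ?_⟩
      rw [hq, SimpleGraph.dist_comm]
    · rintro i hi ⟨p, hp⟩
      have h3 := SimpleGraph.dist_le p
      rw [SimpleGraph.dist_comm] at h3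
      omega

/-- at most one class in an event is closer to the root than the event. -/
theorem Cl_unique (hG : (incidence 𝓑).IsAcyclic) {r : X} {B : Finset (Finset (X × Fin k))}
    {x y : X} (hx : Cl 𝓑 r B x) (hy : Cl 𝓑 r B y)
    (hr : (incidence 𝓑).Reachable (Sum.inl (twins 𝓑 r)) (Sum.inl (twins 𝓑 x))) :
    twins 𝓑 x = twins 𝓑 y := by
  have hB := hx.1
  have a1 := adj_of_mem hB hx.2.1
  have a2 := adj_of_mem hB hy.2.1
  have hr2 : (incidence 𝓑).Reachable (Sum.inl (twins 𝓑 r)) (Sum.inl (twins 𝓑 y)) :=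
    (hr.trans a1.symm.reachable).trans a2.reachable
  have h1 := (Cl_iff hB hx.2.1 hr).1 hx
  have h2 := (Cl_iff hB hy.2.1 hr2).1 hy
  have := closer_unique hG (hr.trans a1.symm.reachable) a1 a2 h1 h2
  simpa using this

/-- a class is farther from the root than at most one of the events containing it. -/
theorem nCl_unique (hG : (incidence 𝓑).IsAcyclic) {r : X} {B B' : Finset (Finset (X × Fin k))}
    {x : X} (hB : B ∈ 𝓑) (hB' : B' ∈ 𝓑) (hxB : x ∈ dom B) (hxB' : x ∈ dom B')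
    (hr : (incidence 𝓑).Reachable (Sum.inl (twins 𝓑 r)) (Sum.inl (twins 𝓑 x)))
    (h : ¬ Cl 𝓑 r B x) (h' : ¬ Cl 𝓑 r B' x) : B = B' := by
  rw [Cl_iff hB hxB hr] at h
  rw [Cl_iff hB' hxB' hr] at h'
  have a1 := (adj_of_mem hB hxB).symm
  have a2 := (adj_of_mem hB' hxB').symm
  have n1 := hG.dist_ne_of_adj a1 hr
  have n2 := hG.dist_ne_of_adj a2 hr
  have := closer_unique hG hr a1 a2 (by omega) (by omega)
  simpa using this

/-- Joined points lying in some domain are reachable from each other in the incidence graph. -/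
theorem reachable_of_joined {x y : X} (h : Joined 𝓑 x y) :
    (incidence 𝓑).Reachable (Sum.inl (twins 𝓑 x)) (Sum.inl (twins 𝓑 y)) := by
  induction h with
  | rel a b h =>
    obtain ⟨B, hB, ha, hb⟩ := h
    exact (adj_of_mem hB ha).symm.reachable.trans (adj_of_mem hB hb).reachable
  | refl a => exact SimpleGraph.Reachable.refl _
  | symm a b _ ih => exact ih.symm
  | trans a b c _ _ ih1 ih2 => exact ih1.trans ih2

end Pool.Agent.Helper105
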