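import Mathlib
import Pool.Agent.Helper105_Tree.Static
import Pool.Agent.Helper105_Tree.Tree

set_option autoImplicit false

namespace Pool.Agent.Helper105

open MeasureTheory Set
open scoped Classical

attribute [-instance] Finset.instMeasurableSpace
attribute [local instance] finsetBorel sb_finset

section
variable {X : Type*} [MeasurableSpace X] [StandardBorelSpace X]

/-- Borel choice of a representative for an equivalence relation with finite classes. -/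
theorem exists_leader {T : X → X → Prop} (hT : Equivalence T)
    (hm : MeasurableSet {p : X × X | T p.1 p.2}) (hfin : ∀ x, {y | T x y}.Finite) :
    ∃ ℓ : X → X, Measurable ℓ ∧ (∀ x, T x (ℓ x)) ∧ ∀ x y, T x y → ℓ x = ℓ y := by
  obtain ⟨φ, hφm, hφi⟩ : ∃ φ : X → ℝ, Measurable φ ∧ Function.Injective φ :=
    ⟨embeddingReal X, measurable_embeddingReal X, (measurableEmbedding_embeddingReal X).injective⟩
  have hex : ∀ x, ∃ y, T x y ∧ ∀ z, T x z → φ y ≤ φ z := by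
    intro x
    obtain ⟨y, hy1, hy2⟩ := Set.exists_min_image {y | T x y} φ (hfin x) ⟨x, hT.refl x⟩
    exact ⟨y, hy1, hy2⟩
  choose ℓ hℓ1 hℓ2 using hex
  refine ⟨ℓ, ?_, hℓ1, ?_⟩
  · intro S hS
    have e : ℓ ⁻¹' S = {x | ∃ y, (x, y) ∈ {p : X × X | T p.1 p.2 ∧ p.2 ∈ S ∧
        ∀ z, T p.1 z → φ p.2 ≤ φ z}} := by
      ext x
      simp only [mem_preimage, mem_ofPred_eq]
      constructor
      · intro h
        exact ⟨ℓ x, hℓ1 x, h, hℓ2 x⟩
      · rintro ⟨y, h1, h2, h3⟩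
        have : y = ℓ x := hφi (le_antisymm (h3 _ (hℓ1 x)) (hℓ2 x _ h1))
        rw [← this]; exact h2
    rw [e]
    refine proj ?_ ?_
    · refine hm.inter ((measurable_snd hS).inter ?_)
      have e2 : {p : X × X | ∀ z, T p.1 z → φ p.2 ≤ φ z} =
          {p | ∃ z, (p, z) ∈ {r : (X × X) × X | T r.1.1 r.2 ∧ φ r.2 < φ r.1.2}}ᶜ := by
        ext ⟨x, y⟩
        simp only [mem_ofPred_eq, mem_compl_iff, not_exists, not_and, not_lt]
      show MeasurableSet {p : X × X | ∀ z, T p.1 z → φ p.2 ≤ φ z}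
      rw [e2]
      refine MeasurableSet.compl (proj ?_ ?_)
      · refine MeasurableSet.inter ?_ ?_
        · exact (by fun_prop : Measurable fun r : (X × X) × X => (r.1.1, r.2)) hm
        · exact measurableSet_lt (hφm.comp measurable_snd)
            (hφm.comp (measurable_snd.comp measurable_fst))
      · rintro ⟨x, y⟩
        exact ((hfin x).subset fun z hz => hz.1).countable
    · intro x
      exact ((hfin x).subset fun z hz => hz.1).countable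
  · intro x y hxy
    exact hφi (le_antisymm (hℓ2 x _ (hT.trans hxy (hℓ1 y)))
      (hℓ2 y _ (hT.trans (hT.symm hxy) (hℓ1 x))))

variable {k : ℕ}

theorem X0_meas {𝓑 : Set (Finset (Finset (X × Fin k)))} (h𝓑 : MeasurableSet 𝓑)
    (hfin : ∀ x : X, {B | B ∈ 𝓑 ∧ x ∈ dom B}.Finite) :
    MeasurableSet {x : X | ∃ B, B ∈ 𝓑 ∧ x ∈ dom B} := by
  have := proj (inc_meas h𝓑) (fun x => ((hfin x).subset fun B hB => hB).countable)
  exact this

theorem twins_meas {𝓑 : Set (Finset (Finset (X × Fin k)))} (h𝓑 : MeasurableSet 𝓑)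
    (hfin : ∀ x : X, {B | B ∈ 𝓑 ∧ x ∈ dom B}.Finite) :
    MeasurableSet {p : X × X | twins 𝓑 p.1 = twins 𝓑 p.2} := by
  have e : {p : X × X | twins 𝓑 p.1 = twins 𝓑 p.2} =
      {p | ∃ B, (p, B) ∈ {r : (X × X) × Finset (Finset (X × Fin k)) |
        r.2 ∈ 𝓑 ∧ ¬ (r.1.1 ∈ dom r.2 ↔ r.1.2 ∈ dom r.2)}}ᶜ := by
    ext ⟨x, y⟩
    simp only [mem_ofPred_eq, mem_compl_iff, not_exists, not_and, not_not]
    exact twins_eq_iff x y
  rw [e]
  have m1 : Measurable fun r : (X × X) × Finset (Finset (X × Fin k)) => (r.1.1, r.2) := by fun_prop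
  have m2 : Measurable fun r : (X × X) × Finset (Finset (X × Fin k)) => (r.1.2, r.2) := by fun_prop
  refine MeasurableSet.compl (proj ?_ ?_)
  · have e2 : {r : (X × X) × Finset (Finset (X × Fin k)) |
        r.2 ∈ 𝓑 ∧ ¬ (r.1.1 ∈ dom r.2 ↔ r.1.2 ∈ dom r.2)} =
        ((fun r : (X × X) × Finset (Finset (X × Fin k)) => (r.1.1, r.2)) ⁻¹'
            {p | p.2 ∈ 𝓑 ∧ p.1 ∈ dom p.2} \
          (fun r : (X × X) × Finset (Finset (X × Fin k)) => (r.1.2, r.2)) ⁻¹'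
            {p | p.2 ∈ 𝓑 ∧ p.1 ∈ dom p.2}) ∪
        ((fun r : (X × X) × Finset (Finset (X × Fin k)) => (r.1.2, r.2)) ⁻¹'
            {p | p.2 ∈ 𝓑 ∧ p.1 ∈ dom p.2} \
          (fun r : (X × X) × Finset (Finset (X × Fin k)) => (r.1.1, r.2)) ⁻¹'
            {p | p.2 ∈ 𝓑 ∧ p.1 ∈ dom p.2}) := by
      ext ⟨⟨x, y⟩, B⟩
      simp only [mem_ofPred_eq, mem_union, mem_diff, mem_preimage]
      tauto
    rw [e2]
    exact ((m1 (inc_meas h𝓑)).diff (m2 (inc_meas h𝓑))).union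
      ((m2 (inc_meas h𝓑)).diff (m1 (inc_meas h𝓑)))
  · rintro ⟨x, y⟩
    refine (((hfin x).union (hfin y)).subset ?_).countable
    rintro B ⟨h1, h2⟩
    simp only [mem_union, mem_ofPred_eq] at h1 h2 ⊢
    tauto

theorem WL_meas {𝓑 : Set (Finset (Finset (X × Fin k)))} (h𝓑 : MeasurableSet 𝓑)
    (hfin : ∀ x : X, {B | B ∈ 𝓑 ∧ x ∈ dom B}.Finite) (j : ℕ) :
    MeasurableSet {p : X × X | (∃ B, B ∈ 𝓑 ∧ p.1 ∈ dom B) ∧
      WL 𝓑 j (Sum.inl (twins 𝓑 p.1)) p.2} ∧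
    MeasurableSet {p : Finset (Finset (X × Fin k)) × X | p.1 ∈ 𝓑 ∧
      WL 𝓑 j (Sum.inr p.1) p.2} := by
  induction j with
  | zero =>
    constructor
    · have e : {p : X × X | (∃ B, B ∈ 𝓑 ∧ p.1 ∈ dom B) ∧
          WL 𝓑 0 (Sum.inl (twins 𝓑 p.1)) p.2} =
          (Prod.fst ⁻¹' {x : X | ∃ B, B ∈ 𝓑 ∧ x ∈ dom B}) ∩
          {p : X × X | twins 𝓑 p.1 = twins 𝓑 p.2} := by
        ext ⟨x, y⟩
        simp only [mem_ofPred_eq, mem_inter_iff, mem_preimage, WL_zero_inl]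
      rw [e]
      exact (measurable_fst (X0_meas h𝓑 hfin)).inter (twins_meas h𝓑 hfin)
    · have e : {p : Finset (Finset (X × Fin k)) × X | p.1 ∈ 𝓑 ∧ WL 𝓑 0 (Sum.inr p.1) p.2} = ∅ := by
        ext ⟨B, r⟩
        simp only [mem_ofPred_eq, mem_empty_iff_false, iff_false, not_and]
        intro _
        exact WL_zero_inr B r
      rw [e]
      exact MeasurableSet.empty
  | succ j ih =>
    obtain ⟨ih1, ih2⟩ := ih
    constructor
    · have e : {p : X × X | (∃ B, B ∈ 𝓑 ∧ p.1 ∈ dom B) ∧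
          WL 𝓑 (j + 1) (Sum.inl (twins 𝓑 p.1)) p.2} =
          {p | ∃ B, (p, B) ∈ {r : (X × X) × Finset (Finset (X × Fin k)) |
            (r.2 ∈ 𝓑 ∧ r.1.1 ∈ dom r.2) ∧ (r.2 ∈ 𝓑 ∧ WL 𝓑 j (Sum.inr r.2) r.1.2)}} := by
        ext ⟨x, y⟩
        simp only [mem_ofPred_eq, WL_succ_inl]
        constructor
        · rintro ⟨-, B, h1, h2, h3⟩
          exact ⟨B, ⟨h1, h2⟩, h1, h3⟩
        · rintro ⟨B, ⟨h1, h2⟩, -, h3⟩
          exact ⟨⟨B, h1, h2⟩, B, h1, h2, h3⟩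
      rw [e]
      refine proj ?_ ?_
      · refine MeasurableSet.inter ?_ ?_
        · exact (by fun_prop : Measurable
            fun r : (X × X) × Finset (Finset (X × Fin k)) => (r.1.1, r.2)) (inc_meas h𝓑)
        · exact (by fun_prop : Measurable
            fun r : (X × X) × Finset (Finset (X × Fin k)) => (r.2, r.1.2)) ih2
      · rintro ⟨x, y⟩
        exact ((hfin x).subset fun B hB => hB.1).countable
    · have e : {p : Finset (Finset (X × Fin k)) × X | p.1 ∈ 𝓑 ∧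
          WL 𝓑 (j + 1) (Sum.inr p.1) p.2} =
          {p | ∃ x, (p, x) ∈ {r : (Finset (Finset (X × Fin k)) × X) × X |
            (r.1.1 ∈ 𝓑 ∧ r.2 ∈ dom r.1.1) ∧ ((∃ B, B ∈ 𝓑 ∧ r.2 ∈ dom B) ∧
              WL 𝓑 j (Sum.inl (twins 𝓑 r.2)) r.1.2)}} := by
        ext ⟨B, y⟩
        simp only [mem_ofPred_eq]
        constructor
        · rintro ⟨h1, h2⟩
          obtain ⟨x, hx, h3⟩ := (WL_succ_inr j h1 y).1 h2
          exact ⟨x, ⟨h1, hx⟩, ⟨B, h1, hx⟩, h3⟩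
        · rintro ⟨x, ⟨h1, hx⟩, -, h3⟩
          exact ⟨h1, (WL_succ_inr j h1 y).2 ⟨x, hx, h3⟩⟩
      rw [e]
      refine proj ?_ ?_
      · refine MeasurableSet.inter ?_ ?_
        · exact (by fun_prop : Measurable
            fun r : (Finset (Finset (X × Fin k)) × X) × X => (r.2, r.1.1)) (inc_meas h𝓑)
        · exact (by fun_prop : Measurable
            fun r : (Finset (Finset (X × Fin k)) × X) × X => (r.2, r.1.2)) ih1
      · rintro ⟨B, y⟩
        exact ((dom B).finite_toSet.subset fun x hx => hx.1.2).countable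

theorem Cl_meas {𝓑 : Set (Finset (Finset (X × Fin k)))} (h𝓑 : MeasurableSet 𝓑)
    (hfin : ∀ x : X, {B | B ∈ 𝓑 ∧ x ∈ dom B}.Finite) :
    MeasurableSet {p : X × (Finset (Finset (X × Fin k)) × X) | Cl 𝓑 p.1 p.2.1 p.2.2} := by
  have e : {p : X × (Finset (Finset (X × Fin k)) × X) | Cl 𝓑 p.1 p.2.1 p.2.2} =
      ((fun p : X × (Finset (Finset (X × Fin k)) × X) => (p.2.2, p.2.1)) ⁻¹'
        {p | p.2 ∈ 𝓑 ∧ p.1 ∈ dom p.2}) ∩
      ⋃ j : ℕ, (((fun p : X × (Finset (Finset (X × Fin k)) × X) => (p.2.2, p.1)) ⁻¹'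
        {p : X × X | (∃ B, B ∈ 𝓑 ∧ p.1 ∈ dom B) ∧ WL 𝓑 j (Sum.inl (twins 𝓑 p.1)) p.2}) ∩
        ⋂ i ∈ Iic j, ((fun p : X × (Finset (Finset (X × Fin k)) × X) => (p.2.1, p.1)) ⁻¹'
        {p : Finset (Finset (X × Fin k)) × X | p.1 ∈ 𝓑 ∧ WL 𝓑 i (Sum.inr p.1) p.2})ᶜ) := by
    ext ⟨r, B, x⟩
    simp only [mem_ofPred_eq, Cl, mem_inter_iff, mem_preimage, mem_iUnion, mem_iInter,
      mem_compl_iff, mem_Iic, not_and]
    constructor
    · rintro ⟨h1, h2, j, h3, h4⟩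
      exact ⟨⟨h1, h2⟩, j, ⟨⟨B, h1, h2⟩, h3⟩, fun i hi _ => h4 i hi⟩
    · rintro ⟨⟨h1, h2⟩, j, ⟨-, h3⟩, h4⟩
      exact ⟨h1, h2, j, h3, fun i hi => h4 i hi h1⟩
  rw [e]
  refine MeasurableSet.inter ?_ (MeasurableSet.iUnion fun j => MeasurableSet.inter ?_
    (MeasurableSet.biInter (to_countable _) fun i _ => MeasurableSet.compl ?_))
  · exact (by fun_prop : Measurable
      fun p : X × (Finset (Finset (X × Fin k)) × X) => (p.2.2, p.2.1)) (inc_meas h𝓑)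
  · exact (by fun_prop : Measurable
      fun p : X × (Finset (Finset (X × Fin k)) × X) => (p.2.2, p.1)) (WL_meas h𝓑 hfin j).1
  · exact (by fun_prop : Measurable
      fun p : X × (Finset (Finset (X × Fin k)) × X) => (p.2.1, p.1)) (WL_meas h𝓑 hfin i).2

end

end Pool.Agent.Helper105
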