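import Mathlib
import Pool.Agent.Helper105_Tree.Defs

set_option autoImplicit false

namespace Pool.Agent.Helper105

open scoped Classical ENNReal

/-- the product of `1 - ω` over the other members of `S` -/
noncomputable def QQ {E : Type*} (ω : E → ℝ) (S : Finset E) (B : E) : ℝ :=
  ∏ B' ∈ S, if B' = B then 1 else 1 - ω B'

theorem QQ_insert_self {E : Type*} (ω : E → ℝ) (S : Finset E) (b : E) (hb : b ∉ S) :
    QQ ω (insert b S) b = ∏ B ∈ S, (1 - ω B) := by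
  unfold QQ
  rw [Finset.prod_insert hb, if_pos rfl, one_mul]
  refine Finset.prod_congr rfl fun B hB => ?_
  rw [if_neg]
  rintro rfl
  exact hb hB

theorem QQ_insert_ne {E : Type*} (ω : E → ℝ) (S : Finset E) (b B : E) (hb : b ∉ S)
    (hB : B ∈ S) : QQ ω (insert b S) B = (1 - ω b) * QQ ω S B := by
  unfold QQ
  rw [Finset.prod_insert hb, if_neg]
  rintro rfl
  exact hb hB

theorem QQ_mul {E : Type*} (ω : E → ℝ) (S : Finset E) (B : E) (hB : B ∈ S) :
    (1 - ω B) * QQ ω S B = ∏ B' ∈ S, (1 - ω B') := by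
  unfold QQ
  rw [← Finset.mul_prod_erase S _ hB, ← Finset.mul_prod_erase S (fun B' => 1 - ω B') hB,
    if_pos rfl, one_mul]
  congr 1
  refine Finset.prod_congr rfl fun B' hB' => ?_
  rw [if_neg (Finset.ne_of_mem_erase hB')]

theorem QQ_nonneg {E : Type*} {ω : E → ℝ} {S : Finset E} (h1 : ∀ B ∈ S, ω B < 1) (B : E) :
    0 < QQ ω S B := by
  unfold QQ
  refine Finset.prod_pos fun B' hB' => ?_
  split_ifs
  · exact zero_lt_one
  · linarith [h1 B' hB']

theorem QQ_sum {E : Type*} {ω : E → ℝ} {S : Finset E} (h0 : ∀ B ∈ S, 0 < ω B)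
    (h1 : ∀ B ∈ S, ω B < 1) :
    (∏ B ∈ S, (1 - ω B)) + ∑ B ∈ S, QQ ω S B * ω B ≤ 1 ∧
    (2 ≤ S.card → (∏ B ∈ S, (1 - ω B)) + ∑ B ∈ S, QQ ω S B * ω B < 1) := by
  induction S using Finset.induction_on with
  | empty => simp
  | insert b S hb ih =>
    have h0' : ∀ B ∈ S, 0 < ω B := fun B hB => h0 B (Finset.mem_insert_of_mem hB)
    have h1' : ∀ B ∈ S, ω B < 1 := fun B hB => h1 B (Finset.mem_insert_of_mem hB)
    obtain ⟨ih1, -⟩ := ih h0' h1'
    have e : (∏ B ∈ insert b S, (1 - ω B)) + ∑ B ∈ insert b S, QQ ω (insert b S) B * ω B =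
        ((∏ B ∈ S, (1 - ω B)) + ∑ B ∈ S, QQ ω S B * ω B) -
        ω b * ∑ B ∈ S, QQ ω S B * ω B := by
      rw [Finset.prod_insert hb, Finset.sum_insert hb, QQ_insert_self ω S b hb]
      have : ∑ B ∈ S, QQ ω (insert b S) B * ω B = (1 - ω b) * ∑ B ∈ S, QQ ω S B * ω B := by
        rw [Finset.mul_sum]
        refine Finset.sum_congr rfl fun B hB => ?_
        rw [QQ_insert_ne ω S b B hb hB]
        ring
      rw [this]
      ring
    have hb0 := h0 b (Finset.mem_insert_self _ _)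
    have hnn : 0 ≤ ∑ B ∈ S, QQ ω S B * ω B :=
      Finset.sum_nonneg fun B hB => mul_nonneg (QQ_nonneg h1' B).le (h0' B hB).le
    rw [e]
    refine ⟨by nlinarith, fun hcard => ?_⟩
    rw [Finset.card_insert_of_notMem hb] at hcard
    have hS : S.Nonempty := Finset.card_pos.1 (by omega)
    have hpos : 0 < ∑ B ∈ S, QQ ω S B * ω B :=
      Finset.sum_pos (fun B hB => mul_pos (QQ_nonneg h1' B) (h0' B hB)) hS
    nlinarith [mul_pos hb0 hpos]

/-- the unnormalised weight -/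
noncomputable def W0 {E : Type*} (ω : E → ℝ) (S : Finset E) (s : ℝ) (B : E) : ℝ :=
  QQ ω S B * (1 - s * (1 - ω B))

theorem W0_pos {E : Type*} {ω : E → ℝ} {S : Finset E} (h0 : ∀ B ∈ S, 0 < ω B)
    (h1 : ∀ B ∈ S, ω B < 1) {s : ℝ} (hs1 : s ≤ 1) {B : E} (hB : B ∈ S) :
    0 < W0 ω S s B := by
  unfold W0
  refine mul_pos (QQ_nonneg h1 B) ?_
  nlinarith [h0 B hB, h1 B hB]

theorem W0_sum {E : Type*} {ω : E → ℝ} {S : Finset E} (h0 : ∀ B ∈ S, 0 < ω B)
    (h1 : ∀ B ∈ S, ω B < 1) {s : E → ℝ} (hs : ∑ B ∈ S, (1 - s B) ≤ 1) :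
    ∑ B ∈ S, W0 ω S (s B) B ≤ 1 ∧ (2 ≤ S.card → ∑ B ∈ S, W0 ω S (s B) B < 1) := by
  have e : ∑ B ∈ S, W0 ω S (s B) B =
      (∏ B ∈ S, (1 - ω B)) * (∑ B ∈ S, (1 - s B)) + ∑ B ∈ S, QQ ω S B * ω B := by
    rw [Finset.mul_sum, ← Finset.sum_add_distrib]
    refine Finset.sum_congr rfl fun B hB => ?_
    rw [← QQ_mul ω S B hB]
    unfold W0
    ring
  have hPi : 0 ≤ ∏ B ∈ S, (1 - ω B) := Finset.prod_nonneg fun B hB => by linarith [h1 B hB]
  obtain ⟨q1, q2⟩ := QQ_sum h0 h1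
  rw [e]
  refine ⟨by nlinarith, fun hc => ?_⟩
  have := q2 hc
  nlinarith

theorem one_sub_sum_le {A : Type*} (S : Finset A) (c : A → ℝ) (h0 : ∀ a ∈ S, 0 ≤ c a)
    (h1 : ∀ a ∈ S, c a ≤ 1) : 1 - ∑ a ∈ S, c a ≤ ∏ a ∈ S, (1 - c a) ∧
    ∏ a ∈ S, (1 - c a) ≤ 1 := by
  induction S using Finset.induction_on with
  | empty => simp
  | insert b S hb ih =>
    obtain ⟨ih1, ih2⟩ := ih (fun a ha => h0 a (Finset.mem_insert_of_mem ha))
      (fun a ha => h1 a (Finset.mem_insert_of_mem ha))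
    rw [Finset.sum_insert hb, Finset.prod_insert hb]
    have a0 := h0 b (Finset.mem_insert_self _ _)
    have a1 := h1 b (Finset.mem_insert_self _ _)
    have hp : 0 ≤ ∏ a ∈ S, (1 - c a) := Finset.prod_nonneg fun a ha => by
      linarith [h1 a (Finset.mem_insert_of_mem ha)]
    constructor <;> nlinarith

theorem prod_ge {A : Type*} (S : Finset A) (s : A → ℝ) (h0 : ∀ a ∈ S, 0 ≤ s a)
    (h1 : ∑ a ∈ S, s a ≤ 1) {ω : ℝ} (hω0 : 0 ≤ ω) (hω1 : ω ≤ 1) :
    ω ≤ ∏ a ∈ S, (1 - s a * (1 - ω)) := by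
  have hs1 : ∀ a ∈ S, s a ≤ 1 := fun a ha => (Finset.single_le_sum h0 ha).trans h1
  have := (one_sub_sum_le S (fun a => s a * (1 - ω))
    (fun a ha => mul_nonneg (h0 a ha) (by linarith))
    (fun a ha => by nlinarith [h0 a ha, hs1 a ha])).1
  rw [← Finset.sum_mul] at this
  nlinarith

theorem prob_pos {X : Type*} {k : ℕ} (hk : 0 < k) {B : Finset (Finset (X × Fin k))}
    (hB : IsBadEvent B) : 0 < prob B := by
  unfold prob
  have h1 : 0 < B.card := Finset.card_pos.2 hB.nonempty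
  have h2 : (0 : ℝ) < k := by exact_mod_cast hk
  positivity

theorem slll_lll {X : Type*} {k : ℕ} (hk : 0 < k) {𝓑 : Set (Finset (Finset (X × Fin k)))}
    (hbad : ∀ B ∈ 𝓑, IsBadEvent B) (h : CorrectSLLL 𝓑) :
    ∃ c : ℝ, CorrectLLL 𝓑 (fun _ => c) := by
  by_cases hne : 𝓑.Nonempty
  swap
  · refine ⟨0, fun B hB => absurd ⟨B, hB⟩ hne⟩
  obtain ⟨B0, hB0⟩ := hne
  have hple : ∀ B ∈ 𝓑, ENNReal.ofReal (prob B) ≤ pSup 𝓑 := fun B hB =>
    le_iSup₂ (f := fun B (_ : B ∈ 𝓑) => ENNReal.ofReal (prob B)) B hB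
  have hdle : ∀ B ∈ 𝓑, ((nbhd 𝓑 B).encard : ℝ≥0∞) ≤ dSup 𝓑 := fun B hB =>
    le_iSup₂ (f := fun B (_ : B ∈ 𝓑) => ((nbhd 𝓑 B).encard : ℝ≥0∞)) B hB
  have hp0 : 0 < pSup 𝓑 :=
    lt_of_lt_of_le (ENNReal.ofReal_pos.2 (prob_pos hk (hbad B0 hB0))) (hple B0 hB0)
  unfold CorrectSLLL at h
  have he : ENNReal.ofReal (Real.exp 1) ≠ 0 := by
    have := ENNReal.ofReal_pos.2 (Real.exp_pos 1)
    exact this.ne'
  have hdtop : dSup 𝓑 ≠ ⊤ := by
    intro hd
    rw [hd, top_add, ENNReal.mul_top (mul_ne_zero he hp0.ne')] at h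
    exact absurd h (by simp)
  have hptop : pSup 𝓑 ≠ ⊤ := by
    intro hd
    rw [hd, ENNReal.mul_top he, ENNReal.top_mul (by simp)] at h
    exact absurd h (by simp)
  obtain ⟨D, hD⟩ : ∃ D : ℝ, D = (dSup 𝓑).toReal := ⟨_, rfl⟩
  obtain ⟨p, hp⟩ : ∃ p : ℝ, p = (pSup 𝓑).toReal := ⟨_, rfl⟩
  have hD0 : 0 ≤ D := by rw [hD]; exact ENNReal.toReal_nonneg
  have hmain : Real.exp 1 * p * (D + 1) < 1 := by
    have h1 := (ENNReal.toReal_lt_toReal (ne_of_lt (h.trans ENNReal.one_lt_top))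
      ENNReal.one_ne_top).2 h
    rw [ENNReal.toReal_mul, ENNReal.toReal_mul, ENNReal.toReal_ofReal (Real.exp_pos 1).le,
      ENNReal.toReal_add hdtop ENNReal.one_ne_top, ENNReal.toReal_one, ← hD, ← hp] at h1
    exact h1
  have hpB : ∀ B ∈ 𝓑, prob B ≤ p := by
    intro B hB
    rw [hp]
    exact (ENNReal.ofReal_le_iff_le_toReal hptop).1 (hple B hB)
  have hnB : ∀ B ∈ 𝓑, (nbhd 𝓑 B).Finite ∧ ((nbhd 𝓑 B).ncard : ℝ) ≤ D := by
    intro B hB
    have hfin : (nbhd 𝓑 B).Finite := by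
      by_contra hinf
      have h1 : (nbhd 𝓑 B).encard = ⊤ := Set.encard_eq_top_iff.2 hinf
      have h2 := hdle B hB
      rw [h1] at h2
      exact hdtop (top_le_iff.1 (by simpa using h2))
    refine ⟨hfin, ?_⟩
    have h2 := hdle B hB
    rw [← hfin.cast_ncard_eq] at h2
    have h3 := ENNReal.toReal_mono hdtop h2
    rw [hD]
    simpa using h3
  have hprod : ∀ (c : ℝ), ∀ B ∈ 𝓑, ∏ᶠ B' ∈ nbhd 𝓑 B, (1 - c) = (1 - c) ^ (nbhd 𝓑 B).ncard := by
    intro c B hB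
    have hf := (hnB B hB).1
    rw [finprod_mem_eq_finite_toFinset_prod _ hf, Finset.prod_const]
    congr 1
    exact (Set.ncard_eq_toFinset_card _ hf).symm
  have hexp := Real.exp_pos 1
  have hp0' : 0 ≤ p := by rw [hp]; exact ENNReal.toReal_nonneg
  by_cases hD1 : 1 ≤ D
  · refine ⟨1 / (D + 1), fun B hB => ⟨by positivity, ?_, (hnB B hB).1, ?_⟩⟩
    · rw [div_lt_one (by linarith)]; linarith
    · rw [hprod _ B hB]
      have h1 : 1 - 1 / (D + 1) = (1 + 1 / D)⁻¹ := by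
        field_simp
        ring
      have h2 : Real.exp (-(1 / D)) ≤ 1 - 1 / (D + 1) := by
        rw [h1, Real.exp_neg]
        refine inv_anti₀ (by positivity) ?_
        have := Real.add_one_le_exp (1 / D)
        linarith
      have h3 : Real.exp (-1) ≤ (1 - 1 / (D + 1)) ^ (nbhd 𝓑 B).ncard := by
        calc Real.exp (-1) ≤ Real.exp ((nbhd 𝓑 B).ncard * (-(1 / D))) := by
              apply Real.exp_le_exp.2
              have h4 := (hnB B hB).2
              have h5 : ((nbhd 𝓑 B).ncard : ℝ) * (1 / D) ≤ 1 := by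
                rw [mul_one_div, div_le_one (by linarith)]; exact h4
              linarith
          _ = (Real.exp (-(1 / D))) ^ (nbhd 𝓑 B).ncard := by rw [← Real.exp_nat_mul]
          _ ≤ _ := pow_le_pow_left₀ (Real.exp_pos _).le h2 _
      have h4 : p ≤ 1 / (D + 1) * Real.exp (-1) := by
        rw [Real.exp_neg, ← one_div, div_mul_div_comm, one_mul, le_div_iff₀ (by positivity)]
        nlinarith
      calc prob B ≤ p := hpB B hB
        _ ≤ 1 / (D + 1) * Real.exp (-1) := h4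
        _ ≤ _ := mul_le_mul_of_nonneg_left h3 (by positivity)
  · refine ⟨1 / 2, fun B hB => ⟨by norm_num, by norm_num, (hnB B hB).1, ?_⟩⟩
    rw [hprod _ B hB]
    have h1 : (nbhd 𝓑 B).ncard = 0 := by
      have h2 := (hnB B hB).2
      have h3 : ((nbhd 𝓑 B).ncard : ℝ) < 1 := by linarith
      have h4 : (nbhd 𝓑 B).ncard < 1 := by exact_mod_cast h3
      omega
    rw [h1, pow_zero, mul_one]
    have h5 : Real.exp 1 * p < 1 := by
      have : Real.exp 1 * p * 1 ≤ Real.exp 1 * p * (D + 1) :=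
        mul_le_mul_of_nonneg_left (by linarith) (by positivity)
      linarith
    have h6 : (2 : ℝ) < Real.exp 1 := by
      have := Real.exp_one_gt_d9
      linarith
    have := hpB B hB
    nlinarith

end Pool.Agent.Helper105
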