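import Mathlib

set_option autoImplicit false

namespace Pool.Agent.Helper105

open MeasureTheory Set Filter Topology

/-- The tail convex hulls of a sequence of functions. -/
def KK {Z : Type*} (h : ℕ → Z → ℝ) (n : ℕ) : Set (Z → ℝ) :=
  convexHull ℝ (range fun m => h (n + m))

theorem KK_anti {Z : Type*} (h : ℕ → Z → ℝ) {m n : ℕ} (hmn : m ≤ n) : KK h n ⊆ KK h m := by
  apply convexHull_mono
  rintro _ ⟨j, rfl⟩
  refine ⟨n - m + j, ?_⟩
  simp only
  congr 1
  omega

theorem KK_meas {Z : Type*} [MeasurableSpace Z] {h : ℕ → Z → ℝ} (hm : ∀ m, Measurable (h m))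
    {n : ℕ} {y : Z → ℝ} (hy : y ∈ KK h n) : Measurable y := by
  have hc : Convex ℝ {y : Z → ℝ | Measurable y} := by
    intro a ha b hb s t _ _ _
    exact (ha.const_smul s).add (hb.const_smul t)
  refine convexHull_min ?_ hc hy
  rintro _ ⟨j, rfl⟩
  exact hm _

theorem KK_bd {Z : Type*} {h : ℕ → Z → ℝ} (hb : ∀ m z, h m z ∈ Icc (0 : ℝ) 1)
    {n : ℕ} {y : Z → ℝ} (hy : y ∈ KK h n) (z : Z) : y z ∈ Icc (0 : ℝ) 1 := by
  have hc : Convex ℝ {y : Z → ℝ | y z ∈ Icc (0 : ℝ) 1} := by
    intro a ha b hb s t hs ht hst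
    exact convex_Icc (0 : ℝ) 1 ha hb hs ht hst
  have := convexHull_min ?_ hc hy
  · exact this
  rintro _ ⟨j, rfl⟩
  exact hb _ _

theorem conv_lim {Z : Type*} [MeasurableSpace Z] (M : Measure Z) [IsFiniteMeasure M]
    (h : ℕ → Z → ℝ) (hm : ∀ m, Measurable (h m)) (hb : ∀ m z, h m z ∈ Icc (0 : ℝ) 1) :
    ∃ y : ℕ → Z → ℝ, (∀ n, y n ∈ KK h n) ∧
      ∀ᵐ z ∂M, ∃ l, Tendsto (fun n => y n z) atTop (𝓝 l) := by
  obtain ⟨J, hJ⟩ : ∃ J : (Z → ℝ) → ℝ, ∀ y, J y = ∫ z, (y z) ^ 2 ∂M := ⟨_, fun _ => rfl⟩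
  have hJ0 : ∀ y, 0 ≤ J y := fun y => by
    rw [hJ]; exact integral_nonneg fun z => sq_nonneg _
  have hint : ∀ y : Z → ℝ, Measurable y → (∀ z, |y z| ≤ 2) → Integrable (fun z => (y z) ^ 2) M := by
    intro y hy hb
    refine Integrable.of_bound (hy.pow_const 2).aestronglyMeasurable 4 (Eventually.of_forall ?_)
    intro z
    rw [Real.norm_eq_abs, abs_pow]
    have := hb z
    nlinarith [abs_nonneg (y z)]
  have hJ1 : ∀ n, ∀ y ∈ KK h n, J y ≤ M.real univ := by
    intro n y hy
    rw [hJ]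
    calc ∫ z, (y z) ^ 2 ∂M ≤ ∫ z, (1 : ℝ) ∂M := by
          refine integral_mono (hint y (KK_meas hm hy) fun z => ?_) (integrable_const _) fun z => ?_
          · have := KK_bd hb hy z
            rw [abs_of_nonneg this.1]; linarith [this.2]
          · have := KK_bd hb hy z
            show (y z) ^ 2 ≤ 1
            nlinarith [this.1, this.2]
      _ = M.real univ := by simp
  obtain ⟨D, hD⟩ : ∃ D : ℕ → ℝ, ∀ n, D n = sInf (J '' KK h n) := ⟨_, fun _ => rfl⟩
  have hne : ∀ n, (KK h n).Nonempty := fun n => ⟨h (n + 0), subset_convexHull _ _ ⟨0, rfl⟩⟩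
  have hbdd : ∀ n, BddBelow (J '' KK h n) := fun n => ⟨0, by rintro _ ⟨y, -, rfl⟩; exact hJ0 y⟩
  have hDle : ∀ n, ∀ y ∈ KK h n, D n ≤ J y := fun n y hy => by
    rw [hD]; exact csInf_le (hbdd n) ⟨y, hy, rfl⟩
  have hDmono : Monotone D := by
    intro m n hmn
    rw [hD n]
    refine le_csInf ((hne n).image _) ?_
    rintro _ ⟨y, hy, rfl⟩
    exact hDle m y (KK_anti h hmn hy)
  have hDub : BddAbove (range D) := by
    refine ⟨M.real univ, ?_⟩
    rintro _ ⟨n, rfl⟩
    obtain ⟨y, hy⟩ := hne n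
    exact (hDle n y hy).trans (hJ1 n y hy)
  have hDt : Tendsto D atTop (𝓝 (⨆ n, D n)) := tendsto_atTop_ciSup hDmono hDub
  obtain ⟨ε, hε⟩ : ∃ ε : ℕ → ℝ, ∀ n, ε n = (1 / 4) ^ n := ⟨_, fun _ => rfl⟩
  have hε0 : ∀ n, 0 < ε n := fun n => by rw [hε]; positivity
  have hN : ∀ k, ∃ N, k ≤ N ∧ (⨆ n, D n) - ε k < D N := by
    intro k
    have h1 : ∀ᶠ n in atTop, (⨆ n, D n) - ε k < D n :=
      hDt.eventually (lt_mem_nhds (by linarith [hε0 k]))
    obtain ⟨N, hN1, hN2⟩ := (h1.and (eventually_ge_atTop k)).exists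
    exact ⟨N, hN2, hN1⟩
  choose N hN1 hN2 using hN
  -- make the indices increasing
  obtain ⟨P, hP⟩ : ∃ P : ℕ → ℕ, ∀ k, P k = ∑ i ∈ Finset.range (k + 1), N i := ⟨_, fun _ => rfl⟩
  have hPN : ∀ k, N k ≤ P k := fun k => by
    rw [hP]
    exact Finset.single_le_sum (f := N) (fun i _ => Nat.zero_le _) (Finset.self_mem_range_succ k)
  have hPmono : Monotone P := by
    intro a b hab
    rw [hP, hP]
    exact Finset.sum_le_sum_of_subset (Finset.range_mono (by omega))
  have hPD : ∀ k, (⨆ n, D n) - ε k < D (P k) := fun k =>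
    (hN2 k).trans_le (hDmono (hPN k))
  have hy : ∀ k, ∃ y ∈ KK h (P k), J y < D (P k) + ε k := by
    intro k
    have : sInf (J '' KK h (P k)) < D (P k) + ε k := by
      rw [← hD]; linarith [hε0 k]
    obtain ⟨_, ⟨y, hy, rfl⟩, h2⟩ := exists_lt_of_csInf_lt ((hne _).image _) this
    exact ⟨y, hy, h2⟩
  choose y hyK hyJ using hy
  have hsup : ∀ n, D n ≤ ⨆ n, D n := fun n => le_ciSup hDub n
  have hεanti : ∀ a b, a ≤ b → ε b ≤ ε a := by
    intro a b hab
    rw [hε, hε]
    exact pow_le_pow_of_le_one (by norm_num) (by norm_num) hab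
  have hdiff : ∀ a b, a ≤ b → J (fun z => y a z - y b z) < 7 * ε a := by
    intro a b hab
    have hKb : y b ∈ KK h (P a) := KK_anti h (hPmono hab) (hyK b)
    have hmid : (fun z => (1 / 2 : ℝ) * y a z + (1 / 2) * y b z) ∈ KK h (P a) :=
      convex_convexHull ℝ _ (hyK a) hKb (by norm_num) (by norm_num) (by norm_num)
    have h1 := hDle _ _ hmid
    have ma := KK_meas hm (hyK a)
    have mb := KK_meas hm (hyK b)
    have ba := KK_bd hb (hyK a)
    have bb := KK_bd hb (hyK b)
    have e : J (fun z => y a z - y b z) =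
        2 * J (y a) + 2 * J (y b) - 4 * J (fun z => (1 / 2 : ℝ) * y a z + (1 / 2) * y b z) := by
      rw [hJ, hJ, hJ, hJ]
      have i1 := hint (y a) ma (fun z => by
        rw [abs_of_nonneg (ba z).1]; linarith [(ba z).2])
      have i2 := hint (y b) mb (fun z => by
        rw [abs_of_nonneg (bb z).1]; linarith [(bb z).2])
      have i3 := hint (fun z => (1 / 2 : ℝ) * y a z + (1 / 2) * y b z)
        ((ma.const_mul _).add (mb.const_mul _)) (fun z => by
          have := ba z; have := bb z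
          rw [abs_of_nonneg (by linarith [(ba z).1, (bb z).1])]
          linarith [(ba z).2, (bb z).2])
      have i12 : Integrable (fun z => 2 * y a z ^ 2 + 2 * y b z ^ 2) M :=
        (i1.const_mul 2).add (i2.const_mul 2)
      rw [← integral_const_mul, ← integral_const_mul, ← integral_const_mul,
        ← integral_add (i1.const_mul 2) (i2.const_mul 2),
        ← integral_sub i12 (i3.const_mul 4)]
      refine integral_congr_ae (Eventually.of_forall fun z => ?_)
      simp only
      ring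
    rw [e]
    have h2 := hyJ a
    have h3 := hyJ b
    have h4 := hPD a
    have h5 := hsup (P b)
    have h6 := hεanti a b hab
    have h7 := hε0 a
    linarith
  refine ⟨y, fun n => KK_anti h ((hN1 n).trans (hPN n)) (hyK n), ?_⟩
  refine Lp.ae_tendsto_of_cauchy_eLpNorm (p := 2) (B := fun n => ENNReal.ofReal (3 * (1 / 2) ^ n))
    (fun n => (KK_meas hm (hyK n)).aestronglyMeasurable) (by norm_num) ?_ ?_
  · have hs : Summable fun n : ℕ => (3 : ℝ) * (1 / 2) ^ n :=
      (summable_geometric_of_lt_one (by norm_num) (by norm_num)).mul_left 3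
    exact hs.tsum_ofReal_ne_top
  · intro K n m hn hm'
    have hJle : J (fun z => y n z - y m z) < 7 * ε K := by
      rcases le_total n m with h1 | h1
      · exact (hdiff n m h1).trans_le (by linarith [hεanti K n hn])
      · have : J (fun z => y n z - y m z) = J (fun z => y m z - y n z) := by
          rw [hJ, hJ]
          refine integral_congr_ae (Eventually.of_forall fun z => ?_)
          simp only
          ring
        rw [this]
        exact (hdiff m n h1).trans_le (by linarith [hεanti K m hm'])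
    have mn := KK_meas hm (hyK n)
    have mm := KK_meas hm (hyK m)
    have bn := KK_bd hb (hyK n)
    have bm := KK_bd hb (hyK m)
    have hmem : MemLp (y n - y m) 2 M := by
      refine MemLp.of_bound (mn.sub mm).aestronglyMeasurable 2 (Eventually.of_forall fun z => ?_)
      rw [Pi.sub_apply, Real.norm_eq_abs, abs_le]
      constructor <;> linarith [(bn z).1, (bn z).2, (bm z).1, (bm z).2]
    rw [hmem.eLpNorm_eq_integral_rpow_norm (by norm_num) (by norm_num)]
    refine (ENNReal.ofReal_lt_ofReal_iff (by positivity)).2 ?_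
    have e1 : (∫ z, ‖(y n - y m) z‖ ^ (2 : ENNReal).toReal ∂M) = J (fun z => y n z - y m z) := by
      rw [hJ]
      refine integral_congr_ae (Eventually.of_forall fun z => ?_)
      simp only [Pi.sub_apply, ENNReal.toReal_ofNat, Real.rpow_ofNat, Real.norm_eq_abs, sq_abs]
    rw [e1]
    have e2 : ((2 : ENNReal).toReal)⁻¹ = 1 / 2 := by norm_num
    rw [e2, ← Real.sqrt_eq_rpow, Real.sqrt_lt' (by positivity)]
    refine hJle.trans_le ?_
    rw [hε, mul_pow, ← pow_mul, mul_comm K 2, pow_mul]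
    norm_num

end Pool.Agent.Helper105
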