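import Mathlib
import Pool.Agent.Helper105_Tree.Static

set_option autoImplicit false

namespace Pool.Agent.Helper105

open MeasureTheory Set
open scoped Classical

attribute [-instance] Finset.instMeasurableSpace
attribute [local instance] finsetBorel sb_finset

section
variable {X : Type*} [MeasurableSpace X] [StandardBorelSpace X] {k : ℕ}

theorem cnt_meas {c : X → ℕ} (hc : Measurable c) {f : X → Fin k} (hf : Measurable f) (n : ℕ) :
    Measurable fun B : Finset (Finset (X × Fin k)) => (cnt c f n B : ℝ) := by
  obtain ⟨S, hS⟩ : ∃ S : Set (Finset (X × Fin k)), S =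
      {φ | ∀ q ∈ φ, c q.1 < n → f q.1 = q.2} := ⟨_, rfl⟩
  have hSm : MeasurableSet S := by
    have e : S = {φ | ∃ q, (φ, q) ∈ {p : Finset (X × Fin k) × (X × Fin k) |
        p.2 ∈ p.1 ∧ c p.2.1 < n ∧ f p.2.1 ≠ p.2.2}}ᶜ := by
      rw [hS]
      ext φ
      simp only [mem_ofPred_eq, mem_compl_iff, not_exists, not_and, ne_eq, not_not]
    rw [e]
    refine MeasurableSet.compl (proj ?_ ?_)
    · refine (measurableSet_mem _).inter (MeasurableSet.inter ?_ (MeasurableSet.compl ?_))
      · exact measurableSet_lt (hc.comp (measurable_fst.comp measurable_snd)) measurable_const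
      · exact measurableSet_eq_fun (hf.comp (measurable_fst.comp measurable_snd))
          (measurable_snd.comp measurable_snd)
    · intro φ
      exact (φ.finite_toSet.subset fun q hq => hq.1).countable
  have e : (fun B : Finset (Finset (X × Fin k)) => (cnt c f n B : ℝ)) =
      fun B => ∑ φ ∈ B, S.indicator (fun _ => (1 : ℝ)) φ := by
    funext B
    unfold cnt
    rw [Finset.card_filter]
    push_cast
    refine Finset.sum_congr rfl fun φ _ => ?_
    rw [indicator_apply]
    simp only [hS, mem_ofPred_eq]
  rw [e]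
  exact measurable_fsum (fun B => B) (measurableSet_mem _)
    (fun _ φ => S.indicator (fun _ => (1 : ℝ)) φ)
    ((measurable_const.indicator hSm).comp measurable_snd)

theorem PP_meas {c : X → ℕ} (hc : Measurable c) {f : X → Fin k} (hf : Measurable f) (n : ℕ) :
    Measurable fun B : Finset (Finset (X × Fin k)) => PP c f n B := by
  unfold PP
  refine (cnt_meas hc hf n).div ?_
  have e : (fun B : Finset (Finset (X × Fin k)) =>
      (k : ℝ) ^ ((dom B).filter fun y => n ≤ c y).card) =
      fun B => ∏ y ∈ dom B, if n ≤ c y then (k : ℝ) else 1 := by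
    funext B
    rw [Finset.prod_ite]
    simp
  rw [e]
  refine measurable_fprod (fun B => dom B) dom_meas (fun _ y => if n ≤ c y then (k : ℝ) else 1) ?_
  refine Measurable.ite ?_ measurable_const measurable_const
  exact measurableSet_le measurable_const (hc.comp measurable_snd)

theorem GG_meas {ℓ : X → X} (hℓ : Measurable ℓ) {c : X → ℕ} (hc : Measurable c)
    {f : X → Fin k} (hf : Measurable f) (n : ℕ) :
    Measurable fun p : Finset (Finset (X × Fin k)) × X => GG ℓ c f n p.1 p.2 := by
  unfold GG
  have hs : MeasurableSet {r : (Finset (Finset (X × Fin k)) × X) × X | r.2 ∈ dom r.1.1} :=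
    (by fun_prop : Measurable fun r : (Finset (Finset (X × Fin k)) × X) × X => (r.1.1, r.2))
      dom_meas
  refine measurable_fprod (fun p : Finset (Finset (X × Fin k)) × X => dom p.1) hs
    (fun p y => if ℓ y = p.2 ∧ c y < n then PP c f (c y + 1) p.1 / PP c f (c y) p.1 else 1) ?_
  refine Measurable.ite ?_ ?_ measurable_const
  · refine MeasurableSet.inter ?_ ?_
    · exact measurableSet_eq_fun (hℓ.comp measurable_snd) (measurable_snd.comp measurable_fst)
    · exact measurableSet_lt (hc.comp measurable_snd) measurable_const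
  · refine measurable_glue (fun j : ℕ => {r : (Finset (Finset (X × Fin k)) × X) × X | c r.2 = j})
      (fun j => measurableSet_eq_fun (hc.comp measurable_snd) measurable_const)
      (fun r => ⟨c r.2, rfl⟩) (fun j r => PP c f (j + 1) r.1.1 / PP c f j r.1.1) (fun j => ?_) _
      ?_
    · exact ((PP_meas hc hf (j + 1)).comp (measurable_fst.comp measurable_fst)).div
        ((PP_meas hc hf j).comp (measurable_fst.comp measurable_fst))
    · rintro j r hr
      simp only [mem_ofPred_eq] at hr
      simp only [hr]

theorem upd_meas {c : X → ℕ} (hc : Measurable c) {f : X → Fin k} (hf : Measurable f) (n : ℕ)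
    (t : Fin k) : Measurable (upd c f n t) := by
  unfold upd
  exact Measurable.ite (measurableSet_eq_fun hc measurable_const) measurable_const hf

/-- measurable choice of a minimiser among finitely many measurable functions. -/
theorem meas_argmin (hk : 0 < k) (O : X → Fin k → ℝ) (hO : ∀ t, Measurable fun x => O x t) :
    ∃ m : X → Fin k, Measurable m ∧ ∀ x t, O x (m x) ≤ O x t := by
  have hex : ∀ x, ∃ j : ℕ, ∃ h : j < k, ∀ t, O x ⟨j, h⟩ ≤ O x t := by
    intro x
    have hne : (Finset.univ : Finset (Fin k)).Nonempty := ⟨⟨0, hk⟩, Finset.mem_univ _⟩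
    obtain ⟨t, -, ht⟩ := Finset.exists_min_image Finset.univ (O x) hne
    exact ⟨t.1, t.2, fun t' => ht t' (Finset.mem_univ _)⟩
  have hm : ∀ j, MeasurableSet {x | ∃ h : j < k, ∀ t, O x ⟨j, h⟩ ≤ O x t} := by
    intro j
    by_cases h : j < k
    · have e : {x | ∃ h : j < k, ∀ t, O x ⟨j, h⟩ ≤ O x t} =
          ⋂ t, {x | O x ⟨j, h⟩ ≤ O x t} := by
        ext x
        simp only [mem_ofPred_eq, mem_iInter]
        exact ⟨fun ⟨_, h2⟩ => h2, fun h2 => ⟨h, h2⟩⟩
      rw [e]
      exact MeasurableSet.iInter fun t => measurableSet_le (hO _) (hO _)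
    · have e : {x | ∃ h : j < k, ∀ t, O x ⟨j, h⟩ ≤ O x t} = ∅ := by
        ext x
        simp only [mem_ofPred_eq, mem_empty_iff_false, iff_false]
        rintro ⟨h', -⟩
        exact h h'
      rw [e]
      exact MeasurableSet.empty
  have hfind := measurable_find hex hm
  refine ⟨fun x => ⟨Nat.find (hex x), (Nat.find_spec (hex x)).1⟩, ?_, ?_⟩
  · refine measurable_to_countable' fun t => ?_
    have e : (fun x => (⟨Nat.find (hex x), (Nat.find_spec (hex x)).1⟩ : Fin k)) ⁻¹' {t} =
        (fun x => Nat.find (hex x)) ⁻¹' {t.1} := by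
      ext x
      simp only [mem_preimage, mem_singleton_iff, Fin.ext_iff]
    rw [e]
    exact hfind (measurableSet_singleton _)
  · intro x t
    exact (Nat.find_spec (hex x)).2 t

/-- The objective minimised at a point of colour `n`. -/
noncomputable def OO (ℓ : X → X) (c : X → ℕ) (w : Finset (Finset (X × Fin k)) → X → ℝ)
    (evs : X → Finset (Finset (Finset (X × Fin k)))) (f : X → Fin k) (n : ℕ) (x : X)
    (t : Fin k) : ℝ :=
  ∑ B ∈ evs x, w B (ℓ x) * GG ℓ c f n B (ℓ x) * (PP c (upd c f n t) (n + 1) B / PP c f n B)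

theorem OO_meas {ℓ : X → X} (hℓ : Measurable ℓ) {c : X → ℕ} (hc : Measurable c)
    {w : Finset (Finset (X × Fin k)) → X → ℝ}
    (hw : Measurable fun p : Finset (Finset (X × Fin k)) × X => w p.1 p.2)
    {evs : X → Finset (Finset (Finset (X × Fin k)))}
    (hevs : MeasurableSet {p : X × Finset (Finset (X × Fin k)) | p.2 ∈ evs p.1})
    {f : X → Fin k} (hf : Measurable f) (n : ℕ) (t : Fin k) :
    Measurable fun x => OO ℓ c w evs f n x t := by
  unfold OO
  refine measurable_fsum evs hevs (fun x B => w B (ℓ x) * GG ℓ c f n B (ℓ x) *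
    (PP c (upd c f n t) (n + 1) B / PP c f n B)) ?_
  have h1 : Measurable fun p : X × Finset (Finset (X × Fin k)) => (p.2, ℓ p.1) :=
    measurable_snd.prodMk (hℓ.comp measurable_fst)
  refine ((hw.comp h1).mul ((GG_meas hℓ hc hf n).comp h1)).mul ?_
  exact ((PP_meas hc (upd_meas hc hf n t) (n + 1)).comp measurable_snd).div
    ((PP_meas hc hf n).comp measurable_snd)

end

end Pool.Agent.Helper105
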