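import Mathlib
import Pool.Agent.Helper105_Tree.Static2

set_option autoImplicit false

namespace Pool.Agent.Helper105

open MeasureTheory Set
open scoped Classical

attribute [-instance] Finset.instMeasurableSpace
attribute [local instance] finsetBorel sb_finset

theorem PP_zero {X : Type*} {k : ℕ} (c : X → ℕ) (f : X → Fin k)
    (B : Finset (Finset (X × Fin k))) : PP c f 0 B = prob B := by
  have e1 : (B.filter fun φ => ∀ q ∈ φ, c q.1 < 0 → f q.1 = q.2) = B := by
    apply Finset.filter_true_of_mem
    intro φ _ q _ h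
    omega
  have e2 : ((dom B).filter fun y => 0 ≤ c y) = dom B := by
    apply Finset.filter_true_of_mem
    intro y _
    omega
  unfold PP prob cnt
  rw [e1, e2]

theorem PP_skip {X : Type*} {k : ℕ} (c : X → ℕ) (f : X → Fin k) (n : ℕ)
    (B : Finset (Finset (X × Fin k))) (h : ∀ y ∈ dom B, c y ≠ n) :
    PP c f (n + 1) B = PP c f n B := by
  have e1 : (B.filter fun φ => ∀ q ∈ φ, c q.1 < n + 1 → f q.1 = q.2) =
      (B.filter fun φ => ∀ q ∈ φ, c q.1 < n → f q.1 = q.2) := by
    apply Finset.filter_congr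
    intro φ hφ
    constructor
    · intro h1 q hq hc
      exact h1 q hq (by omega)
    · intro h1 q hq hc
      have := h _ (fst_mem_dom hφ hq)
      exact h1 q hq (by omega)
  have e2 : ((dom B).filter fun y => n + 1 ≤ c y) = ((dom B).filter fun y => n ≤ c y) := by
    apply Finset.filter_congr
    intro y hy
    have := h y hy
    omega
  unfold PP cnt
  rw [e1, e2]

section
variable {X : Type*} [MeasurableSpace X] [StandardBorelSpace X] {k : ℕ}

theorem static (hk : 0 < k) {𝓑 : Set (Finset (Finset (X × Fin k)))} (h𝓑 : MeasurableSet 𝓑)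
    (hbad : ∀ B ∈ 𝓑, IsBadEvent B) (hfin : ∀ x : X, {B | B ∈ 𝓑 ∧ x ∈ dom B}.Finite)
    {ℓ : X → X} (hℓ : Measurable ℓ)
    (htw : ∀ x y, ℓ x = ℓ y → ∀ B ∈ 𝓑, x ∈ dom B → y ∈ dom B)
    {w : Finset (Finset (X × Fin k)) → X → ℝ}
    (hw : Measurable fun p : Finset (Finset (X × Fin k)) × X => w p.1 p.2)
    (hw0 : ∀ B ∈ 𝓑, ∀ x ∈ dom B, 0 < w B (ℓ x))
    (hsum : ∀ x, ∑ B ∈ (hfin x).toFinset, w B (ℓ x) ≤ 1)
    (hprod : ∀ B ∈ 𝓑, prob B < ∏ a ∈ (dom B).image ℓ, w B a) :
    ∃ f : X → Fin k, Measurable f ∧ ∀ B ∈ 𝓑, ∀ φ ∈ B, ¬ ∀ q ∈ φ, f q.1 = q.2 := by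
  obtain ⟨c, hc, hcinj⟩ := exists_color h𝓑 hfin
  obtain ⟨evs, hevsdef⟩ : ∃ evs : X → Finset (Finset (Finset (X × Fin k))),
      ∀ x, evs x = (hfin x).toFinset := ⟨_, fun _ => rfl⟩
  have hmem : ∀ x B, B ∈ evs x ↔ B ∈ 𝓑 ∧ x ∈ dom B := by
    intro x B
    rw [hevsdef]; simp
  have hevs : MeasurableSet {p : X × Finset (Finset (X × Fin k)) | p.2 ∈ evs p.1} := by
    have : {p : X × Finset (Finset (X × Fin k)) | p.2 ∈ evs p.1} =
        {p : X × Finset (Finset (X × Fin k)) | p.2 ∈ 𝓑 ∧ p.1 ∈ dom p.2} := by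
      ext ⟨x, B⟩
      exact hmem x B
    rw [this]
    exact inc_meas h𝓑
  have step : ∀ (n : ℕ) (f : X → Fin k), Measurable f → ∃ f' : X → Fin k, Measurable f' ∧
      (∀ x, c x ≠ n → f' x = f x) ∧
      (∀ x, c x = n → ∀ t, OO ℓ c w evs f n x (f' x) ≤ OO ℓ c w evs f n x t) := by
    intro n f hf
    obtain ⟨m, hm1, hm2⟩ := meas_argmin hk (fun x t => OO ℓ c w evs f n x t)
      (fun t => OO_meas hℓ hc hw hevs hf n t)
    refine ⟨fun x => if c x = n then m x else f x, ?_, ?_, ?_⟩
    · exact Measurable.ite (measurableSet_eq_fun hc measurable_const) hm1 hf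
    · intro x hx
      simp only [if_neg hx]
    · intro x hx t
      simp only [if_pos hx]
      exact hm2 x t
  choose nx hnx1 hnx2 hnx3 using step
  obtain ⟨F, hF⟩ : ∃ F : ℕ → {f : X → Fin k // Measurable f},
      ∀ n, (F (n + 1)).1 = nx n (F n).1 (F n).2 := by
    refine ⟨fun n => Nat.rec ⟨fun _ => ⟨0, hk⟩, measurable_const⟩
      (fun n f => ⟨nx n f.1 f.2, hnx1 n f.1 f.2⟩) n, fun n => rfl⟩
  obtain ⟨g, hg⟩ : ∃ g : X → Fin k, ∀ x, g x = (F (c x + 1)).1 x := ⟨_, fun _ => rfl⟩
  have hgm : Measurable g := by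
    refine measurable_glue (fun j : ℕ => {x | c x = j})
      (fun j => measurableSet_eq_fun hc measurable_const) (fun x => ⟨c x, rfl⟩)
      (fun j => (F (j + 1)).1) (fun j => (F (j + 1)).2) g ?_
    intro j x hx
    simp only [mem_ofPred_eq] at hx
    rw [hg, hx]
  have agree : ∀ x N, c x < N → (F N).1 x = g x := by
    intro x N hN
    induction N, hN using Nat.le_induction with
    | base => exact (hg x).symm
    | succ N hN ih =>
      rw [hF, hnx2 N _ _ x (by have : c x < N := hN; omega)]
      exact ih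
  have hRnn : ∀ (f : X → Fin k) (n : ℕ) B, 0 ≤ PP c f (n + 1) B / PP c f n B := fun f n B =>
    div_nonneg (PP_nonneg _ _ _ _) (PP_nonneg _ _ _ _)
  have key : ∀ n x, c x = n →
      ∑ B ∈ evs x, w B (ℓ x) * GG ℓ c g n B (ℓ x) * (PP c g (n + 1) B / PP c g n B) ≤
      ∑ B ∈ evs x, w B (ℓ x) * GG ℓ c g n B (ℓ x) := by
    intro n x hx
    have e1 : ∑ B ∈ evs x, w B (ℓ x) * GG ℓ c g n B (ℓ x) * (PP c g (n + 1) B / PP c g n B) =
        OO ℓ c w evs (F n).1 n x (g x) := by
      unfold OO
      refine Finset.sum_congr rfl fun B hB => ?_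
      obtain ⟨hB1, hB2⟩ := (hmem x B).1 hB
      have a1 : ∀ y ∈ dom B, c y < n → g y = (F n).1 y := fun y _ hy => (agree y n hy).symm
      rw [GG_congr a1, PP_congr (n := n) a1]
      congr 2
      refine PP_congr fun y hy hyc => ?_
      unfold upd
      split_ifs with h
      · have : y = x := hcinj B hB1 y hy x hB2 (h.trans hx.symm)
        rw [this]
      · exact a1 y hy (by omega)
    have e2 : ∀ t, OO ℓ c w evs (F n).1 n x (g x) ≤ OO ℓ c w evs (F n).1 n x t := by
      intro t
      have : g x = nx n (F n).1 (F n).2 x := by rw [hg, hx, hF]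
      rw [this]
      exact hnx3 n _ _ x hx t
    have e3 : ∑ t, OO ℓ c w evs (F n).1 n x t ≤
        k * ∑ B ∈ evs x, w B (ℓ x) * GG ℓ c g n B (ℓ x) := by
      unfold OO
      rw [Finset.sum_comm, Finset.mul_sum]
      refine Finset.sum_le_sum fun B hB => ?_
      obtain ⟨hB1, hB2⟩ := (hmem x B).1 hB
      have a1 : ∀ y ∈ dom B, c y < n → (F n).1 y = g y := fun y _ hy => agree y n hy
      rw [← Finset.mul_sum, ← Finset.sum_div, avg hk (hbad B hB1) (hcinj B hB1) hB2 hx,
        GG_congr a1]
      have hwG : 0 ≤ w B (ℓ x) * GG ℓ c g n B (ℓ x) :=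
        mul_nonneg (hw0 B hB1 x hB2).le (GG_nonneg _ _ _ _ _ _)
      by_cases hP : PP c (F n).1 n B = 0
      · rw [hP]
        simp only [mul_zero, div_zero]
        positivity
      · rw [mul_div_assoc, div_self hP, mul_one, mul_comm]
    have e4 : (k : ℝ) * OO ℓ c w evs (F n).1 n x (g x) ≤ ∑ t, OO ℓ c w evs (F n).1 n x t := by
      have := Finset.sum_le_sum fun (t : Fin k) (_ : t ∈ Finset.univ) => e2 t
      simpa using this
    rw [e1]
    have hk' : (0 : ℝ) < k := by exact_mod_cast hk
    exact le_of_mul_le_mul_left (e4.trans e3) hk'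
  have Phi : ∀ n x, ∑ B ∈ evs x, w B (ℓ x) * GG ℓ c g n B (ℓ x) ≤ 1 := by
    intro n
    induction n with
    | zero =>
      intro x
      have : ∑ B ∈ evs x, w B (ℓ x) * GG ℓ c g 0 B (ℓ x) = ∑ B ∈ evs x, w B (ℓ x) := by
        refine Finset.sum_congr rfl fun B _ => ?_
        have : GG ℓ c g 0 B (ℓ x) = 1 := by
          unfold GG
          refine Finset.prod_eq_one fun y _ => ?_
          rw [if_neg]
          rintro ⟨-, h⟩
          omega
        rw [this, mul_one]
      rw [this, hevsdef]
      exact hsum x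
    | succ n ih =>
      intro x
      by_cases hy : ∃ y, ℓ y = ℓ x ∧ c y = n
      · obtain ⟨y, hy1, hy2⟩ := hy
        have hev : evs x = evs y := by
          ext B
          rw [hmem, hmem]
          exact ⟨fun ⟨h1, h2⟩ => ⟨h1, htw x y hy1.symm B h1 h2⟩,
            fun ⟨h1, h2⟩ => ⟨h1, htw y x hy1 B h1 h2⟩⟩
        have e1 : ∑ B ∈ evs x, w B (ℓ x) * GG ℓ c g (n + 1) B (ℓ x) =
            ∑ B ∈ evs y, w B (ℓ y) * GG ℓ c g n B (ℓ y) *
              (PP c g (n + 1) B / PP c g n B) := by
          rw [hev]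
          refine Finset.sum_congr rfl fun B hB => ?_
          obtain ⟨hB1, hB2⟩ := (hmem y B).1 hB
          rw [hy1, mul_assoc]
          congr 1
          unfold GG
          have : ∀ z ∈ dom B, (if ℓ z = ℓ x ∧ c z < n + 1 then
              PP c g (c z + 1) B / PP c g (c z) B else 1) =
              (if ℓ z = ℓ x ∧ c z < n then PP c g (c z + 1) B / PP c g (c z) B else 1) *
              (if z = y then PP c g (n + 1) B / PP c g n B else 1) := by
            intro z hz
            by_cases h1 : z = y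
            · subst h1
              rw [if_pos ⟨hy1, by omega⟩, if_neg (by rintro ⟨-, h⟩; omega), if_pos rfl, hy2,
                one_mul]
            · have h2 : c z ≠ n := fun h => h1 (hcinj B hB1 z hz y hB2 (h.trans hy2.symm))
              rw [if_neg h1, mul_one]
              congr 1
              have : c z < n + 1 ↔ c z < n := by omega
              rw [this]
          rw [Finset.prod_congr rfl this, Finset.prod_mul_distrib, Finset.prod_ite_eq',
            if_pos hB2]
        rw [e1]
        exact (key n y hy2).trans (ih y)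
      · have e1 : ∑ B ∈ evs x, w B (ℓ x) * GG ℓ c g (n + 1) B (ℓ x) =
            ∑ B ∈ evs x, w B (ℓ x) * GG ℓ c g n B (ℓ x) := by
          refine Finset.sum_congr rfl fun B _ => ?_
          congr 1
          unfold GG
          refine Finset.prod_congr rfl fun z _ => ?_
          by_cases h1 : ℓ z = ℓ x
          · have h2 : c z ≠ n := fun h => hy ⟨z, h1, h⟩
            have : c z < n + 1 ↔ c z < n := by omega
            simp only [this]
          · rw [if_neg (fun h => h1 h.1), if_neg (fun h => h1 h.1)]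
        rw [e1]
        exact ih x
  have tel : ∀ B ∈ 𝓑, ∀ n, PP c g n B ≤ prob B *
      ∏ y ∈ dom B, if c y < n then PP c g (c y + 1) B / PP c g (c y) B else 1 := by
    intro B hB n
    have hprob0 : 0 ≤ prob B := by unfold prob; positivity
    induction n with
    | zero =>
      rw [PP_zero, Finset.prod_eq_one, mul_one]
      intro y _
      rw [if_neg (by omega)]
    | succ n ih =>
      by_cases hy : ∃ y ∈ dom B, c y = n
      · obtain ⟨y, hy1, hy2⟩ := hy
        have e1 : (∏ z ∈ dom B, if c z < n + 1 then PP c g (c z + 1) B / PP c g (c z) B else 1) =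
            (∏ z ∈ dom B, if c z < n then PP c g (c z + 1) B / PP c g (c z) B else 1) *
            (PP c g (n + 1) B / PP c g n B) := by
          have : ∀ z ∈ dom B, (if c z < n + 1 then
              PP c g (c z + 1) B / PP c g (c z) B else 1) =
              (if c z < n then PP c g (c z + 1) B / PP c g (c z) B else 1) *
              (if z = y then PP c g (n + 1) B / PP c g n B else 1) := by
            intro z hz
            by_cases h1 : z = y
            · subst h1
              rw [if_pos (by omega), if_neg (by omega), if_pos rfl, hy2, one_mul]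
            · have h2 : c z ≠ n := fun h => h1 (hcinj B hB z hz y hy1 (h.trans hy2.symm))
              rw [if_neg h1, mul_one]
              have : c z < n + 1 ↔ c z < n := by omega
              simp only [this]
          rw [Finset.prod_congr rfl this, Finset.prod_mul_distrib, Finset.prod_ite_eq',
            if_pos hy1]
        rw [e1, ← mul_assoc]
        by_cases hP : PP c g n B = 0
        · have h0 : ∑ t, PP c (upd c g n t) (n + 1) B = 0 := by
            rw [avg hk (hbad B hB) (hcinj B hB) hy1 hy2, hP, mul_zero]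
          have h1 := (Finset.sum_eq_zero_iff_of_nonneg
            (fun t _ => PP_nonneg c (upd c g n t) (n + 1) B)).1 h0 (g y) (Finset.mem_univ _)
          have h2 : PP c g (n + 1) B = PP c (upd c g n (g y)) (n + 1) B := by
            refine PP_congr fun z hz _ => ?_
            unfold upd
            split_ifs with h
            · rw [hcinj B hB z hz y hy1 (h.trans hy2.symm)]
            · rfl
          rw [h2, h1, hP]
          simp
        · have h1 : PP c g (n + 1) B = PP c g n B * (PP c g (n + 1) B / PP c g n B) := by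
            field_simp
          calc PP c g (n + 1) B = PP c g n B * (PP c g (n + 1) B / PP c g n B) := h1
            _ ≤ _ := mul_le_mul_of_nonneg_right ih (hRnn g n B)
      · push Not at hy
        rw [PP_skip c g n B hy]
        have e1 : (∏ z ∈ dom B, if c z < n + 1 then PP c g (c z + 1) B / PP c g (c z) B else 1) =
            (∏ z ∈ dom B, if c z < n then PP c g (c z + 1) B / PP c g (c z) B else 1) := by
          refine Finset.prod_congr rfl fun z hz => ?_
          have := hy z hz
          have : c z < n + 1 ↔ c z < n := by omega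
          simp only [this]
        rw [e1]
        exact ih
  refine ⟨g, hgm, ?_⟩
  intro B hB φ hφ hall
  obtain ⟨N, hN⟩ : ∃ N, ∀ y ∈ dom B, c y < N :=
    ⟨(dom B).sup c + 1, fun y hy => Nat.lt_succ_of_le (Finset.le_sup hy)⟩
  have hGGle : ∀ a ∈ (dom B).image ℓ, w B a * GG ℓ c g N B a ≤ 1 := by
    intro a ha
    obtain ⟨x, hx, rfl⟩ := Finset.mem_image.1 ha
    refine le_trans ?_ (Phi N x)
    refine Finset.single_le_sum (f := fun B => w B (ℓ x) * GG ℓ c g N B (ℓ x)) ?_
      ((hmem x B).2 ⟨hB, hx⟩)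
    intro B' hB'
    obtain ⟨h1, h2⟩ := (hmem x B').1 hB'
    exact mul_nonneg (hw0 B' h1 x h2).le (GG_nonneg _ _ _ _ _ _)
  have hw0' : ∀ a ∈ (dom B).image ℓ, 0 < w B a := by
    intro a ha
    obtain ⟨x, hx, rfl⟩ := Finset.mem_image.1 ha
    exact hw0 B hB x hx
  have e1 : (∏ y ∈ dom B, if c y < N then PP c g (c y + 1) B / PP c g (c y) B else 1) =
      ∏ a ∈ (dom B).image ℓ, GG ℓ c g N B a := by
    rw [← Finset.prod_fiberwise_of_maps_to (t := (dom B).image ℓ) (g := ℓ)
      (fun x hx => Finset.mem_image_of_mem ℓ hx)]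
    refine Finset.prod_congr rfl fun a _ => ?_
    unfold GG
    rw [Finset.prod_filter]
    refine Finset.prod_congr rfl fun y hy => ?_
    by_cases h1 : ℓ y = a
    · simp only [h1, true_and, if_true]
    · simp only [h1, false_and, if_false]
  have hG0 : 0 ≤ ∏ a ∈ (dom B).image ℓ, GG ℓ c g N B a :=
    Finset.prod_nonneg fun a _ => GG_nonneg _ _ _ _ _ _
  have hPN : PP c g N B < 1 := by
    refine (tel B hB N).trans_lt ?_
    rw [e1]
    rcases hG0.eq_or_lt with h0 | h0
    · rw [← h0, mul_zero]; exact zero_lt_one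
    · calc prob B * ∏ a ∈ (dom B).image ℓ, GG ℓ c g N B a
          < (∏ a ∈ (dom B).image ℓ, w B a) * ∏ a ∈ (dom B).image ℓ, GG ℓ c g N B a :=
            mul_lt_mul_of_pos_right (hprod B hB) h0
        _ = ∏ a ∈ (dom B).image ℓ, (w B a * GG ℓ c g N B a) := Finset.prod_mul_distrib.symm
        _ ≤ 1 := Finset.prod_le_one
            (fun a ha => mul_nonneg (hw0' a ha).le (GG_nonneg _ _ _ _ _ _)) hGGle
  have hcard : ((dom B).filter fun y => N ≤ c y).card = 0 := by
    rw [Finset.card_eq_zero, Finset.filter_eq_empty_iff]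
    intro y hy
    have := hN y hy
    omega
  unfold PP at hPN
  rw [hcard, pow_zero, div_one] at hPN
  have hcnt : cnt c g N B = 0 := by
    have : cnt c g N B < 1 := by exact_mod_cast hPN
    omega
  unfold cnt at hcnt
  rw [Finset.card_eq_zero, Finset.filter_eq_empty_iff] at hcnt
  exact hcnt hφ fun q hq _ => hall q hq

end

end Pool.Agent.Helper105
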