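import Mathlib
import Pool.Agent.Helper105_Tree.Static3
import Pool.Agent.Helper105_Tree.Meas
import Pool.Agent.Helper105_Tree.Num

set_option autoImplicit false

namespace Pool.Agent.Helper105

open MeasureTheory Set
open scoped Classical

attribute [-instance] Finset.instMeasurableSpace
attribute [local instance] finsetBorel sb_finset

section
variable {X : Type*} [MeasurableSpace X] [StandardBorelSpace X] {k : ℕ}

theorem twin_leader {𝓑 : Set (Finset (Finset (X × Fin k)))} (h𝓑 : MeasurableSet 𝓑)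
    (hfin : ∀ x : X, {B | B ∈ 𝓑 ∧ x ∈ dom B}.Finite) :
    ∃ ℓ : X → X, Measurable ℓ ∧ (∀ x, twins 𝓑 x = twins 𝓑 (ℓ x)) ∧
      (∀ x y, (∃ B, B ∈ 𝓑 ∧ x ∈ dom B) → twins 𝓑 x = twins 𝓑 y → ℓ x = ℓ y) := by
  obtain ⟨T, hT⟩ : ∃ T : X → X → Prop, ∀ x y, T x y ↔
      (x = y ∨ ((∃ B, B ∈ 𝓑 ∧ x ∈ dom B) ∧ twins 𝓑 x = twins 𝓑 y)) := ⟨_, fun _ _ => Iff.rfl⟩
  have hX0 : ∀ x y, twins 𝓑 x = twins 𝓑 y → (∃ B, B ∈ 𝓑 ∧ x ∈ dom B) →
      (∃ B, B ∈ 𝓑 ∧ y ∈ dom B) := by
    rintro x y h ⟨B, hB, hx⟩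
    exact ⟨B, hB, ((twins_eq_iff x y).1 h B hB).1 hx⟩
  have hTe : Equivalence T := by
    refine ⟨fun x => (hT _ _).2 (Or.inl rfl), ?_, ?_⟩
    · intro x y h
      rcases (hT _ _).1 h with h | ⟨h1, h2⟩
      · exact (hT _ _).2 (Or.inl h.symm)
      · exact (hT _ _).2 (Or.inr ⟨hX0 x y h2 h1, h2.symm⟩)
    · intro x y z h h'
      rcases (hT _ _).1 h with h | ⟨h1, h2⟩
      · rw [h]; exact h'
      · rcases (hT _ _).1 h' with h' | ⟨h3, h4⟩
        · rw [← h']; exact h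
        · exact (hT _ _).2 (Or.inr ⟨h1, h2.trans h4⟩)
  have hTm : MeasurableSet {p : X × X | T p.1 p.2} := by
    have e : {p : X × X | T p.1 p.2} = {p : X × X | p.1 = p.2} ∪
        ((Prod.fst ⁻¹' {x : X | ∃ B, B ∈ 𝓑 ∧ x ∈ dom B}) ∩
          {p : X × X | twins 𝓑 p.1 = twins 𝓑 p.2}) := by
      ext ⟨x, y⟩
      simp only [mem_ofPred_eq, hT, mem_union, mem_inter_iff, mem_preimage]
    rw [e]
    exact (measurableSet_eq_fun measurable_fst measurable_snd).union
      ((measurable_fst (X0_meas h𝓑 hfin)).inter (twins_meas h𝓑 hfin))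
  have hTf : ∀ x, {y | T x y}.Finite := by
    intro x
    by_cases hx : ∃ B, B ∈ 𝓑 ∧ x ∈ dom B
    · obtain ⟨B, hB, hxB⟩ := hx
      refine ((dom B).finite_toSet.insert x).subset ?_
      intro y hy
      rcases (hT _ _).1 hy with h | ⟨h1, h2⟩
      · exact Or.inl h.symm
      · exact Or.inr (((twins_eq_iff x y).1 h2 B hB).1 hxB)
    · refine (Set.finite_singleton x).subset ?_
      intro y hy
      rcases (hT _ _).1 hy with h | ⟨h1, h2⟩
      · exact h.symm
      · exact absurd h1 hx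
  obtain ⟨ℓ, h1, h2, h3⟩ := exists_leader hTe hTm hTf
  refine ⟨ℓ, h1, ?_, ?_⟩
  · intro x
    rcases (hT _ _).1 (h2 x) with h | ⟨-, h⟩
    · rw [← h]
    · exact h
  · intro x y hx hxy
    exact h3 x y ((hT _ _).2 (Or.inr ⟨hx, hxy⟩))

theorem finish (hk : 0 < k) {𝓑 : Set (Finset (Finset (X × Fin k)))} (h𝓑 : MeasurableSet 𝓑)
    (hbad : ∀ B ∈ 𝓑, IsBadEvent B) (hfin : ∀ x : X, {B | B ∈ 𝓑 ∧ x ∈ dom B}.Finite)
    {ω : Finset (Finset (X × Fin k)) → ℝ} (hω : Measurable ω) (hL : CorrectLLL 𝓑 ω)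
    (hG : (incidence 𝓑).IsAcyclic)
    {ℓ : X → X} (hℓ : Measurable ℓ) (hℓ1 : ∀ x, twins 𝓑 x = twins 𝓑 (ℓ x))
    (hℓ2 : ∀ x y, (∃ B, B ∈ 𝓑 ∧ x ∈ dom B) → twins 𝓑 x = twins 𝓑 y → ℓ x = ℓ y)
    {G : Set X} (hGm : MeasurableSet G)
    (hGinv : ∀ B ∈ 𝓑, ∀ x ∈ dom B, ∀ y ∈ dom B, x ∈ G → y ∈ G)
    {σ : Finset (Finset (X × Fin k)) × X → ℝ} (hσ : Measurable σ)
    (hσ01 : ∀ z, σ z ∈ Icc (0 : ℝ) 1)
    (hc1 : ∀ B ∈ 𝓑, (∀ x ∈ dom B, x ∈ G) → ∑ a ∈ (dom B).image ℓ, σ (B, a) ≤ 1)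
    (hc2 : ∀ x ∈ G, ∑ B ∈ (hfin x).toFinset, (1 - σ (B, ℓ x)) ≤ 1) :
    ∃ f : X → Fin k, Measurable f ∧ ∀ B ∈ 𝓑, (∀ x ∈ dom B, x ∈ G) →
      ∀ φ ∈ B, ¬ ∀ q ∈ φ, f q.1 = q.2 := by
  obtain ⟨evs, hevsdef⟩ : ∃ evs : X → Finset (Finset (Finset (X × Fin k))),
      ∀ x, evs x = (hfin x).toFinset := ⟨_, fun _ => rfl⟩
  have hmem : ∀ x B, B ∈ evs x ↔ B ∈ 𝓑 ∧ x ∈ dom B := by
    intro x B
    rw [hevsdef]; simp
  have hevs : MeasurableSet {p : X × Finset (Finset (X × Fin k)) | p.2 ∈ evs p.1} := by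
    have : {p : X × Finset (Finset (X × Fin k)) | p.2 ∈ evs p.1} =
        {p : X × Finset (Finset (X × Fin k)) | p.2 ∈ 𝓑 ∧ p.1 ∈ dom p.2} := by
      ext ⟨x, B⟩
      exact hmem x B
    rw [this]
    exact inc_meas h𝓑
  have hdomℓ : ∀ x, ∀ B ∈ 𝓑, x ∈ dom B ↔ ℓ x ∈ dom B := fun x B hB =>
    (twins_eq_iff x (ℓ x)).1 (hℓ1 x) B hB
  have hevℓ : ∀ x, evs (ℓ x) = evs x := by
    intro x
    ext B
    rw [hmem, hmem]
    constructor
    · rintro ⟨h1, h2⟩
      exact ⟨h1, (hdomℓ x B h1).2 h2⟩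
    · rintro ⟨h1, h2⟩
      exact ⟨h1, (hdomℓ x B h1).1 h2⟩
  have hω1 : ∀ B ∈ 𝓑, ω B < 1 := fun B hB => (hL B hB).2.1
  have hω0 : ∀ B ∈ 𝓑, 0 < ω B := by
    intro B hB
    obtain ⟨h1, h2, h3, h4⟩ := hL B hB
    rcases h1.eq_or_lt with h | h
    · rw [← h, zero_mul] at h4
      exact absurd h4 (not_le.2 (prob_pos hk (hbad B hB)))
    · exact h
  have hprob : ∀ (B : Finset (Finset (X × Fin k))) (hB : B ∈ 𝓑),
      prob B ≤ ω B * ∏ B' ∈ (hL B hB).2.2.1.toFinset, (1 - ω B') := by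
    intro B hB
    have h4 := (hL B hB).2.2.2
    rwa [finprod_mem_eq_finite_toFinset_prod _ (hL B hB).2.2.1] at h4
  -- the unnormalised weights and the normalisation
  obtain ⟨w0, hw0⟩ : ∃ w0 : Finset (Finset (X × Fin k)) → X → ℝ, ∀ B a, w0 B a =
      W0 ω (evs a) (σ (B, a)) B := ⟨_, fun _ _ => rfl⟩
  obtain ⟨Z, hZ⟩ : ∃ Z : X → ℝ, ∀ a, Z a = ∑ B ∈ evs a, w0 B a := ⟨_, fun _ => rfl⟩
  have hw0m : Measurable fun p : Finset (Finset (X × Fin k)) × X => w0 p.1 p.2 := by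
    simp only [hw0, W0, QQ]
    refine Measurable.mul ?_ ?_
    · have hs : MeasurableSet {r : (Finset (Finset (X × Fin k)) × X) ×
          Finset (Finset (X × Fin k)) | r.2 ∈ evs r.1.2} :=
        (by fun_prop : Measurable fun r : (Finset (Finset (X × Fin k)) × X) ×
          Finset (Finset (X × Fin k)) => (r.1.2, r.2)) hevs
      refine measurable_fprod (fun p : Finset (Finset (X × Fin k)) × X => evs p.2) hs
        (fun p B' => @ite ℝ (B' = p.1) (Classical.propDecidable _) 1 (1 - ω B')) ?_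
      refine Measurable.ite ?_ measurable_const ?_
      · exact measurableSet_eq_fun measurable_snd (measurable_fst.comp measurable_fst)
      · exact measurable_const.sub (hω.comp measurable_snd)
    · exact measurable_const.sub ((hσ.comp measurable_id).mul
        (measurable_const.sub (hω.comp measurable_fst)))
  have hZm : Measurable Z := by
    have e : Z = fun a => ∑ B ∈ evs a, w0 B a := by funext a; exact hZ a
    rw [e]
    exact measurable_fsum evs hevs (fun a B => w0 B a) (hw0m.comp measurable_swap)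
  have hevω0 : ∀ x, ∀ B ∈ evs x, 0 < ω B := fun x B hB => hω0 B ((hmem x B).1 hB).1
  have hevω1 : ∀ x, ∀ B ∈ evs x, ω B < 1 := fun x B hB => hω1 B ((hmem x B).1 hB).1
  have hw0pos : ∀ x, ∀ B ∈ evs x, 0 < w0 B (ℓ x) := by
    intro x B hB
    rw [hw0, hevℓ]
    exact W0_pos (hevω0 x) (hevω1 x) (hσ01 _).2 hB
  have hZle : ∀ x ∈ G, Z (ℓ x) ≤ 1 ∧ (2 ≤ (evs x).card → Z (ℓ x) < 1) := by
    intro x hx
    have h1 := hc2 x hx
    rw [← hevsdef] at h1
    have h2 := W0_sum (hevω0 x) (hevω1 x) (s := fun B => σ (B, ℓ x)) h1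
    have h3 : Z (ℓ x) = ∑ B ∈ evs x, W0 ω (evs x) (σ (B, ℓ x)) B := by
      rw [hZ, hevℓ]
      refine Finset.sum_congr rfl fun B _ => ?_
      rw [hw0, hevℓ]
    rw [h3]
    exact h2
  have hZpos : ∀ x, (evs x).Nonempty → 0 < Z (ℓ x) := by
    intro x hx
    rw [hZ, hevℓ]
    exact Finset.sum_pos (hw0pos x) hx
  -- the restricted instance
  obtain ⟨𝓒, h𝓒⟩ : ∃ 𝓒 : Set (Finset (Finset (X × Fin k))), 𝓒 =
      {B | B ∈ 𝓑 ∧ ∀ x ∈ dom B, x ∈ G} := ⟨_, rfl⟩
  have h𝓒m : MeasurableSet 𝓒 := by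
    have e : 𝓒 = 𝓑 ∩ {B | ∃ x, (B, x) ∈ {p : Finset (Finset (X × Fin k)) × X |
        p.2 ∈ dom p.1 ∧ p.2 ∈ Gᶜ}}ᶜ := by
      rw [h𝓒]
      ext B
      simp only [mem_ofPred_eq, mem_inter_iff, mem_compl_iff, not_exists, not_and, not_not]
    rw [e]
    refine h𝓑.inter (MeasurableSet.compl (proj ?_ ?_))
    · exact dom_meas.inter (measurable_snd hGm.compl)
    · intro B
      exact ((dom B).finite_toSet.subset fun x hx => hx.1).countable
  have h𝓒fin : ∀ x : X, {B | B ∈ 𝓒 ∧ x ∈ dom B}.Finite := by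
    intro x
    refine (hfin x).subset ?_
    rintro B ⟨h1, h2⟩
    rw [h𝓒] at h1
    exact ⟨h1.1, h2⟩
  have hsub : ∀ B ∈ 𝓒, B ∈ 𝓑 ∧ ∀ x ∈ dom B, x ∈ G := by
    intro B hB; rw [h𝓒] at hB; exact hB
  obtain ⟨f, hf1, hf2⟩ := static hk h𝓒m (fun B hB => hbad B (hsub B hB).1) h𝓒fin hℓ
    (by
      intro x y hxy B hB hx
      have hB' := (hsub B hB).1
      have h1 : twins 𝓑 x = twins 𝓑 y := by rw [hℓ1 x, hxy, ← hℓ1 y]
      exact ((twins_eq_iff x y).1 h1 B hB').1 hx)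
    (w := fun B a => w0 B a / Z a) (hw0m.div (hZm.comp measurable_snd))
    (by
      intro B hB x hx
      have hB' := (hsub B hB).1
      have hBx : B ∈ evs x := (hmem x B).2 ⟨hB', hx⟩
      exact div_pos (hw0pos x B hBx) (hZpos x ⟨B, hBx⟩))
    (by
      intro x
      by_cases hx : x ∈ G
      · have e : (h𝓒fin x).toFinset = evs x := by
          ext B
          simp only [Finite.mem_toFinset, mem_ofPred_eq, hmem]
          constructor
          · rintro ⟨h1, h2⟩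
            exact ⟨(hsub B h1).1, h2⟩
          · rintro ⟨h1, h2⟩
            refine ⟨?_, h2⟩
            rw [h𝓒]
            exact ⟨h1, fun y hy => hGinv B h1 x h2 y hy hx⟩
        rw [e, ← Finset.sum_div]
        have : ∑ B ∈ evs x, w0 B (ℓ x) = Z (ℓ x) := by rw [hZ, hevℓ]
        rw [this]
        exact div_self_le_one _
      · have e : (h𝓒fin x).toFinset = ∅ := by
          ext B
          simp only [Finite.mem_toFinset, mem_ofPred_eq, Finset.notMem_empty, iff_false, not_and]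
          intro h1 h2
          exact hx ((hsub B h1).2 x h2)
        rw [e]
        simp)
    (by
      intro B hB
      obtain ⟨hB', hBG⟩ := hsub B hB
      have hfN := (hL B hB').2.2.1
      -- product of the unnormalised weights
      have hA : ∀ a ∈ (dom B).image ℓ, a ∈ dom B ∧ ℓ a = a ∧ a ∈ G ∧ B ∈ evs a := by
        intro a ha
        obtain ⟨x, hx, rfl⟩ := Finset.mem_image.1 ha
        have h1 := (hdomℓ x B hB').1 hx
        refine ⟨h1, ?_, hBG _ h1, (hmem _ B).2 ⟨hB', h1⟩⟩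
        exact (hℓ2 x (ℓ x) ⟨B, hB', hx⟩ (hℓ1 x)).symm
      have e1 : ∏ a ∈ (dom B).image ℓ, QQ ω (evs a) B = ∏ B' ∈ hfN.toFinset, (1 - ω B') := by
        have e2 : ∀ a ∈ (dom B).image ℓ, QQ ω (evs a) B =
            ∏ B' ∈ (evs a).erase B, (1 - ω B') := by
          intro a ha
          obtain ⟨h1, h2, h3, h4⟩ := hA a ha
          unfold QQ
          rw [← Finset.mul_prod_erase (evs a) _ h4, if_pos rfl, one_mul]
          refine Finset.prod_congr rfl fun B' hB' => ?_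
          rw [if_neg (Finset.ne_of_mem_erase hB')]
        rw [Finset.prod_congr rfl e2, ← Finset.prod_biUnion]
        · refine Finset.prod_congr ?_ fun _ _ => rfl
          ext B'
          simp only [Finset.mem_biUnion, Finset.mem_erase, Finite.mem_toFinset, nbhd,
            mem_ofPred_eq]
          constructor
          · rintro ⟨a, ha, h1, h2⟩
            obtain ⟨h3, h4, h5, h6⟩ := hA a ha
            exact ⟨((hmem a B').1 h2).1, h1, a, ((hmem a B').1 h2).2, h3⟩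
          · rintro ⟨h1, h2, x, h3, h4⟩
            refine ⟨ℓ x, Finset.mem_image_of_mem ℓ h4, h2, ?_⟩
            rw [hevℓ]
            exact (hmem x B').2 ⟨h1, h3⟩
        · intro a ha a' ha' haa
          rw [Function.onFun, Finset.disjoint_left]
          intro B' h1 h2
          obtain ⟨p1, p2, p3, p4⟩ := hA a ha
          obtain ⟨q1, q2, q3, q4⟩ := hA a' ha'
          rw [Finset.mem_erase] at h1 h2
          have h3 := (hmem _ _).1 h1.2
          have h4 := (hmem _ _).1 h2.2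
          have := share_unique hG hB' h3.1 (Ne.symm h1.1) p1 h3.2 q1 h4.2
          apply haa
          have h5 := hℓ2 a a' ⟨B, hB', p1⟩ this
          rwa [p2, q2] at h5
      have hσ0 : ∀ a ∈ (dom B).image ℓ, 0 ≤ σ (B, a) := fun a _ => (hσ01 _).1
      have e3 := prod_ge ((dom B).image ℓ) (fun a => σ (B, a)) hσ0 (hc1 B hB' hBG)
        (hω0 B hB').le (hω1 B hB').le
      have hQpos : 0 < ∏ B' ∈ hfN.toFinset, (1 - ω B') := by
        refine Finset.prod_pos fun B' h => ?_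
        rw [Finite.mem_toFinset] at h
        linarith [hω1 B' h.1]
      have e4 : prob B ≤ ∏ a ∈ (dom B).image ℓ, w0 B a := by
        simp only [hw0, W0]
        rw [Finset.prod_mul_distrib, e1]
        calc prob B ≤ ω B * ∏ B' ∈ hfN.toFinset, (1 - ω B') := hprob B hB'
          _ = (∏ B' ∈ hfN.toFinset, (1 - ω B')) * ω B := mul_comm _ _
          _ ≤ _ := mul_le_mul_of_nonneg_left e3 hQpos.le
      have hwpos : ∀ a ∈ (dom B).image ℓ, 0 < w0 B a := by
        intro a ha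
        obtain ⟨h1, h2, h3, h4⟩ := hA a ha
        have := hw0pos a B h4
        rwa [h2] at this
      have hZa : ∀ a ∈ (dom B).image ℓ, 0 < Z a ∧ Z a ≤ 1 ∧ (2 ≤ (evs a).card → Z a < 1) := by
        intro a ha
        obtain ⟨h1, h2, h3, h4⟩ := hA a ha
        have p1 := hZpos a ⟨B, h4⟩
        have p2 := hZle a h3
        rw [h2] at p1 p2
        exact ⟨p1, p2⟩
      by_cases hall : ∀ a ∈ (dom B).image ℓ, (evs a).card ≤ 1
      · have : ∏ a ∈ (dom B).image ℓ, w0 B a / Z a = 1 := by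
          refine Finset.prod_eq_one fun a ha => ?_
          obtain ⟨h1, h2, h3, h4⟩ := hA a ha
          have h5 : evs a = {B} := by
            apply (Finset.eq_singleton_iff_unique_mem).2
            refine ⟨h4, fun B' hB'' => ?_⟩
            exact Finset.card_le_one.1 (hall a ha) B' hB'' B h4
          have h6 : Z a = w0 B a := by rw [hZ, h5, Finset.sum_singleton]
          rw [h6]
          exact div_self (hwpos a ha).ne'
        rw [this]
        calc prob B ≤ ω B * ∏ B' ∈ hfN.toFinset, (1 - ω B') := hprob B hB'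
          _ ≤ ω B * 1 := by
            refine mul_le_mul_of_nonneg_left ?_ (hω0 B hB').le
            refine Finset.prod_le_one (fun B' h => ?_) (fun B' h => ?_)
            · rw [Finite.mem_toFinset] at h
              linarith [hω1 B' h.1]
            · rw [Finite.mem_toFinset] at h
              linarith [hω0 B' h.1]
          _ < 1 := by rw [mul_one]; exact hω1 B hB'
      · push Not at hall
        obtain ⟨a0, ha0, hc0⟩ := hall
        refine e4.trans_lt ?_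
        refine Finset.prod_lt_prod (fun a ha => hwpos a ha) (fun a ha => ?_) ⟨a0, ha0, ?_⟩
        · obtain ⟨p1, p2, p3⟩ := hZa a ha
          rw [le_div_iff₀ p1]
          nlinarith [hwpos a ha]
        · obtain ⟨p1, p2, p3⟩ := hZa a0 ha0
          have p4 := p3 (by omega)
          rw [lt_div_iff₀ p1]
          nlinarith [hwpos a0 ha0])
  refine ⟨f, hf1, fun B hB hBG => hf2 B ?_⟩
  rw [h𝓒]
  exact ⟨hB, hBG⟩

end

end Pool.Agent.Helper105
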