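import Mathlib
import Pool.Agent.Helper105_Tree.Finish
import Pool.Agent.Helper105_Tree.Conv

set_option autoImplicit false

namespace Pool.Agent.Helper105

open MeasureTheory Set Filter Topology
open scoped Classical

attribute [-instance] Finset.instMeasurableSpace
attribute [local instance] finsetBorel sb_finset

section
variable {X : Type*} [MeasurableSpace X] [StandardBorelSpace X] {k : ℕ}

/-- The closest-class functions of the finite levels, and an almost everywhere limit of their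
convex combinations. -/
theorem limit_weights {𝓑 : Set (Finset (Finset (X × Fin k)))} (h𝓑 : MeasurableSet 𝓑)
    (hfin : ∀ x : X, {B | B ∈ 𝓑 ∧ x ∈ dom B}.Finite)
    (hG : (incidence 𝓑).IsAcyclic) (μ : Measure X) [IsProbabilityMeasure μ]
    (hH : MuHyperfinite μ (Joined 𝓑))
    {ℓ : X → X} (hℓ : Measurable ℓ) (hℓ1 : ∀ x, twins 𝓑 x = twins 𝓑 (ℓ x))
    (hℓ2 : ∀ x y, (∃ B, B ∈ 𝓑 ∧ x ∈ dom B) → twins 𝓑 x = twins 𝓑 y → ℓ x = ℓ y) :
    ∃ (G : Set X) (σ : Finset (Finset (X × Fin k)) × X → ℝ), MeasurableSet G ∧ μ Gᶜ = 0 ∧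
      (∀ B ∈ 𝓑, ∀ x ∈ dom B, ∀ y ∈ dom B, x ∈ G → y ∈ G) ∧ Measurable σ ∧
      (∀ z, σ z ∈ Icc (0 : ℝ) 1) ∧
      (∀ B ∈ 𝓑, (∀ x ∈ dom B, x ∈ G) → ∑ a ∈ (dom B).image ℓ, σ (B, a) ≤ 1) ∧
      (∀ x ∈ G, ∑ B ∈ (hfin x).toFinset, (1 - σ (B, ℓ x)) ≤ 1) := by
  obtain ⟨Y, hYm, hYμ, hYinv, F, hF1, hF2, hF3, hF4, hF5⟩ := hH
  have hFmono : ∀ m n, m ≤ n → ∀ x y, F m x y → F n x y := by
    intro m n hmn
    induction n, hmn using Nat.le_induction with
    | base => exact fun x y h => h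
    | succ n _ ih => exact fun x y h => hF4 n x y (ih x y h)
  have hr := fun m => exists_leader (hF1 m) (hF2 m) (hF3 m)
  choose r hr1 hr2 hr3 using hr
  -- the level functions
  obtain ⟨h, hh⟩ : ∃ h : ℕ → Finset (Finset (X × Fin k)) × X → ℝ, ∀ m p, h m p =
      if Cl 𝓑 (r m p.2) p.1 p.2 then 1 else 0 := ⟨_, fun _ _ => rfl⟩
  have hhm : ∀ m, Measurable (h m) := by
    intro m
    have e : h m = fun p => if Cl 𝓑 (r m p.2) p.1 p.2 then 1 else 0 := by
      funext p; exact hh m p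
    rw [e]
    refine Measurable.ite ?_ measurable_const measurable_const
    have hm : Measurable fun p : Finset (Finset (X × Fin k)) × X => (r m p.2, p) :=
      ((hr1 m).comp measurable_snd).prodMk measurable_id
    exact hm (Cl_meas h𝓑 hfin)
  have hhb : ∀ m z, h m z ∈ Icc (0 : ℝ) 1 := by
    intro m z
    rw [hh]
    split_ifs <;> simp
  -- enumeration of the classes
  obtain ⟨E', hE'⟩ : ∃ E' : X → X → Prop, ∀ x y, E' x y ↔ (x = y ∨ (x ∈ Y ∧ ∃ n, F n x y)) :=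
    ⟨_, fun _ _ => Iff.rfl⟩
  have hE'e : Equivalence E' := by
    refine ⟨fun x => (hE' _ _).2 (Or.inl rfl), ?_, ?_⟩
    · intro x y hxy
      rcases (hE' _ _).1 hxy with h1 | ⟨h1, n, h2⟩
      · exact (hE' _ _).2 (Or.inl h1.symm)
      · refine (hE' _ _).2 (Or.inr ⟨?_, n, (hF1 n).symm h2⟩)
        exact hYinv x y ((hF5 x h1 y).2 ⟨n, h2⟩) h1
    · intro x y z hxy hyz
      rcases (hE' _ _).1 hxy with h1 | ⟨h1, n, h2⟩
      · rw [h1]; exact hyz
      · rcases (hE' _ _).1 hyz with h3 | ⟨h3, m, h4⟩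
        · rw [← h3]; exact hxy
        · exact (hE' _ _).2 (Or.inr ⟨h1, max n m, (hF1 _).trans (hFmono _ _ (le_max_left _ _) _ _ h2)
            (hFmono _ _ (le_max_right _ _) _ _ h4)⟩)
  have hE'm : MeasurableSet {p : X × X | E' p.1 p.2} := by
    have e : {p : X × X | E' p.1 p.2} = {p : X × X | p.1 = p.2} ∪
        ((Prod.fst ⁻¹' Y) ∩ ⋃ n, {p : X × X | F n p.1 p.2}) := by
      ext ⟨x, y⟩
      simp only [mem_ofPred_eq, hE', mem_union, mem_inter_iff, mem_preimage, mem_iUnion]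
    rw [e]
    exact (measurableSet_eq_fun measurable_fst measurable_snd).union
      ((measurable_fst hYm).inter (MeasurableSet.iUnion hF2))
  have hE'c : ∀ x, {y | E' x y}.Countable := by
    intro x
    refine ((countable_singleton x).union (countable_iUnion fun n =>
      (hF3 n x).countable)).mono ?_
    intro y hy
    rcases (hE' _ _).1 hy with h1 | ⟨-, n, h2⟩
    · exact Or.inl h1.symm
    · exact Or.inr (mem_iUnion.2 ⟨n, h2⟩)
  obtain ⟨γ, hγm, hγ⟩ := Pool.Agent.Helper281.LN.cber_enum E' hE'e hE'm hE'c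
  -- enumeration of the events at a point
  obtain ⟨g, D, hg1, hg2, hg3, hg4⟩ := enum (∅ : Finset (Finset (X × Fin k))) (inc_meas h𝓑)
    (fun x => ((hfin x).subset fun B hB => hB).countable)
  obtain ⟨ψ, hψ⟩ : ∃ ψ : X × (ℕ × ℕ) → Finset (Finset (X × Fin k)) × X, ∀ q,
      ψ q = (g q.2.2 (γ q.2.1 q.1), ℓ (γ q.2.1 q.1)) := ⟨_, fun _ => rfl⟩
  have hψm : Measurable ψ := by
    refine measurable_from_prod_countable_left fun ij => ?_
    simp only [hψ]
    exact ((hg1 _).comp (hγm _)).prodMk (hℓ.comp (hγm _))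
  obtain ⟨y, hy1, hy2⟩ := conv_lim
    (Measure.map ψ ((μ.prod (Measure.count : Measure (ℕ × ℕ))).toFinite)) h hhm hhb
  have hyC : ∀ᵐ x ∂μ, ∀ ij : ℕ × ℕ, ∃ l, Tendsto (fun n => y n (ψ (x, ij))) atTop (𝓝 l) := by
    have h1 := ae_of_ae_map hψm.aemeasurable hy2
    rw [ae_toFinite] at h1
    have h2 := Measure.ae_ae_of_ae_prod h1
    filter_upwards [h2] with x hx
    exact Measure.ae_count_iff.1 hx
  have hym : ∀ n, Measurable (y n) := fun n => KK_meas hhm (hy1 n)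
  obtain ⟨C, hC⟩ : ∃ C : Set (Finset (Finset (X × Fin k)) × X), C =
      {z | ∃ l, Tendsto (fun n => y n z) atTop (𝓝 l)} := ⟨_, rfl⟩
  have hCm : MeasurableSet C := by
    rw [hC]
    exact MeasureTheory.measurableSet_exists_tendsto hym
  -- the limit function
  have hlim : ∀ z, ∃ l, Tendsto (fun n => C.indicator (y n) z) atTop (𝓝 l) := by
    intro z
    by_cases hz : z ∈ C
    · simp only [indicator_of_mem hz]
      rw [hC] at hz
      exact hz
    · simp only [indicator_of_notMem hz]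
      exact ⟨0, tendsto_const_nhds⟩
  choose σ hσ using hlim
  have hσm : Measurable σ :=
    measurable_of_tendsto_metrizable (fun n => (hym n).indicator hCm) (tendsto_pi_nhds.2 hσ)
  have hσC : ∀ z ∈ C, Tendsto (fun n => y n z) atTop (𝓝 (σ z)) := by
    intro z hz
    have := hσ z
    simp only [indicator_of_mem hz] at this
    exact this
  have hσ01 : ∀ z, σ z ∈ Icc (0 : ℝ) 1 := by
    intro z
    refine isClosed_Icc.mem_of_tendsto (hσ z) (Eventually.of_forall fun n => ?_)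
    by_cases hz : z ∈ C
    · simp only [indicator_of_mem hz]
      exact KK_bd hhb (hy1 n) z
    · simp only [indicator_of_notMem hz]
      simp
  -- the good set
  obtain ⟨I, hI⟩ : ∃ I : Set X, I = {z | ∃ B, (z, B) ∈ {p : X × Finset (Finset (X × Fin k)) |
      (p.2 ∈ 𝓑 ∧ p.1 ∈ dom p.2) ∧ (p.2, ℓ p.1) ∈ Cᶜ}} := ⟨_, rfl⟩
  have hIm : MeasurableSet I := by
    rw [hI]
    refine proj ?_ ?_
    · refine (inc_meas h𝓑).inter ?_
      have hm : Measurable fun p : X × Finset (Finset (X × Fin k)) => (p.2, ℓ p.1) :=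
        measurable_snd.prodMk (hℓ.comp measurable_fst)
      exact hm hCm.compl
    · intro x
      exact ((hfin x).subset fun B hB => hB.1).countable
  obtain ⟨G, hGd⟩ : ∃ G : Set X, G = Y ∩ ⋂ i, (γ i) ⁻¹' Iᶜ := ⟨_, rfl⟩
  have hGm : MeasurableSet G := by
    rw [hGd]
    exact hYm.inter (MeasurableSet.iInter fun i => hγm i hIm.compl)
  have hGmem : ∀ x, x ∈ G ↔ x ∈ Y ∧ ∀ z, E' x z → ∀ B ∈ 𝓑, z ∈ dom B → (B, ℓ z) ∈ C := by
    intro x
    rw [hGd]
    simp only [mem_inter_iff, mem_iInter, mem_preimage, mem_compl_iff, hI, mem_ofPred_eq,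
      not_exists, not_and, not_not, and_imp]
    constructor
    · rintro ⟨h1, h2⟩
      refine ⟨h1, fun z hz B hB hzB => ?_⟩
      obtain ⟨i, rfl⟩ := (hγ x z).1 hz
      exact h2 i B hB hzB
    · rintro ⟨h1, h2⟩
      exact ⟨h1, fun i B hB hzB => h2 _ ((hγ x _).2 ⟨i, rfl⟩) B hB hzB⟩
  have hYae : ∀ᵐ x ∂μ, x ∈ Y := by
    rw [ae_iff]
    exact hYμ
  have hGμ : μ Gᶜ = 0 := by
    have : ∀ᵐ x ∂μ, x ∈ G := by
      filter_upwards [hyC, hYae] with x hx hxY
      rw [hGmem]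
      refine ⟨hxY, fun z hz B hB hzB => ?_⟩
      obtain ⟨i, rfl⟩ := (hγ x z).1 hz
      obtain ⟨j, hj, hj2⟩ := (hg3 _ B).1 (show (γ i x, B) ∈ _ from ⟨hB, hzB⟩)
      have := hx (i, j)
      rw [hψ] at this
      simp only [hj2] at this
      rw [hC]
      exact this
    rw [ae_iff] at this
    exact this
  have hjoin : ∀ B ∈ 𝓑, ∀ x ∈ dom B, ∀ z ∈ dom B, Joined 𝓑 x z := fun B hB x hx z hz =>
    Relation.EqvGen.rel _ _ ⟨B, hB, hx, hz⟩
  have hGinv : ∀ B ∈ 𝓑, ∀ x ∈ dom B, ∀ z ∈ dom B, x ∈ G → z ∈ G := by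
    intro B hB x hx z hz hxG
    obtain ⟨h1, h2⟩ := (hGmem x).1 hxG
    have h3 := hjoin B hB x hx z hz
    have h4 : E' x z := (hE' _ _).2 (Or.inr ⟨h1, (hF5 x h1 z).1 h3⟩)
    exact (hGmem z).2 ⟨hYinv x z h3 h1, fun z' hz' => h2 z' (hE'e.trans h4 hz')⟩
  have hdomℓ : ∀ x, ∀ B ∈ 𝓑, x ∈ dom B ↔ ℓ x ∈ dom B := fun x B hB =>
    (twins_eq_iff x (ℓ x)).1 (hℓ1 x) B hB
  have hreach : ∀ m x, x ∈ Y → (incidence 𝓑).Reachable (Sum.inl (twins 𝓑 (r m x)))
      (Sum.inl (twins 𝓑 x)) := by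
    intro m x hx
    exact (reachable_of_joined ((hF5 x hx _).2 ⟨m, hr2 m x⟩)).symm
  refine ⟨G, σ, hGm, hGμ, hGinv, hσm, hσ01, ?_, ?_⟩
  · -- the classes of an event
    intro B hB hBG
    have hAdom : ∀ a ∈ (dom B).image ℓ, a ∈ dom B ∧ ℓ a = a := by
      intro a ha
      obtain ⟨x, hx, rfl⟩ := Finset.mem_image.1 ha
      exact ⟨(hdomℓ x B hB).1 hx, (hℓ2 x (ℓ x) ⟨B, hB, hx⟩ (hℓ1 x)).symm⟩
    -- all points of the domain are eventually equivalent
    have hm0 : ∃ m0, ∀ m ≥ m0, ∀ x ∈ dom B, ∀ z ∈ dom B, F m x z := by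
      have h1 : ∀ p ∈ (dom B) ×ˢ (dom B), ∃ n, F n p.1 p.2 := by
        intro p hp
        rw [Finset.mem_product] at hp
        have hxY := ((hGmem _).1 (hBG _ hp.1)).1
        exact (hF5 _ hxY _).1 (hjoin B hB _ hp.1 _ hp.2)
      choose! nn hnn using h1
      refine ⟨((dom B) ×ˢ (dom B)).sup nn, fun m hm x hx z hz => ?_⟩
      have hp : (x, z) ∈ (dom B) ×ˢ (dom B) := Finset.mem_product.2 ⟨hx, hz⟩
      exact hFmono _ _ ((Finset.le_sup hp).trans hm) x z (hnn (x, z) hp)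
    obtain ⟨m0, hm0⟩ := hm0
    have hconv : Convex ℝ {u : Finset (Finset (X × Fin k)) × X → ℝ |
        ∑ a ∈ (dom B).image ℓ, u (B, a) ≤ 1} := by
      intro u hu v hv s t hs ht hst
      simp only [mem_ofPred_eq, Pi.add_apply, Pi.smul_apply, smul_eq_mul,
        Finset.sum_add_distrib, ← Finset.mul_sum] at hu hv ⊢
      nlinarith
    have hyle : ∀ n ≥ m0, ∑ a ∈ (dom B).image ℓ, y n (B, a) ≤ 1 := by
      intro n hn
      refine convexHull_min ?_ hconv (hy1 n)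
      rintro _ ⟨m, rfl⟩
      simp only [mem_ofPred_eq, hh]
      rw [Finset.sum_ite, Finset.sum_const_zero, add_zero, Finset.sum_const, nsmul_eq_mul, mul_one]
      have hcard : (((dom B).image ℓ).filter
          fun a => Cl 𝓑 (r (n + m) a) B a).card ≤ 1 := by
        refine Finset.card_le_one.2 fun a ha a' ha' => ?_
        rw [Finset.mem_filter] at ha ha'
        obtain ⟨p1, p2⟩ := hAdom a ha.1
        obtain ⟨q1, q2⟩ := hAdom a' ha'.1
        have h1 : r (n + m) a = r (n + m) a' :=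
          hr3 _ _ _ (hm0 _ (by omega) a p1 a' q1)
        have h2 := ha.2
        have h3 := ha'.2
        rw [← h1] at h3
        have haY := ((hGmem _).1 (hBG _ p1)).1
        have h4 := Cl_unique hG h2 h3 (hreach _ _ haY)
        have h5 := hℓ2 a a' ⟨B, hB, p1⟩ h4
        rwa [p2, q2] at h5
      exact_mod_cast hcard
    have ht : Tendsto (fun n => ∑ a ∈ (dom B).image ℓ, y n (B, a)) atTop
        (𝓝 (∑ a ∈ (dom B).image ℓ, σ (B, a))) := by
      refine tendsto_finsetSum _ fun a ha => hσC _ ?_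
      obtain ⟨x, hx, rfl⟩ := Finset.mem_image.1 ha
      exact ((hGmem x).1 (hBG x hx)).2 x (hE'e.refl x) B hB hx
    exact le_of_tendsto ht ((eventually_ge_atTop m0).mono fun n hn => hyle n hn)
  · -- the events at a point
    intro x hx
    obtain ⟨hxY, hxC⟩ := (hGmem x).1 hx
    have hconv : Convex ℝ {u : Finset (Finset (X × Fin k)) × X → ℝ |
        ∑ B ∈ (hfin x).toFinset, (1 - u (B, ℓ x)) ≤ 1} := by
      intro u hu v hv s t hs ht hst
      simp only [mem_ofPred_eq, Pi.add_apply, Pi.smul_apply, smul_eq_mul] at hu hv ⊢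
      have e : ∑ B ∈ (hfin x).toFinset, (1 - (s * u (B, ℓ x) + t * v (B, ℓ x))) =
          s * ∑ B ∈ (hfin x).toFinset, (1 - u (B, ℓ x)) +
          t * ∑ B ∈ (hfin x).toFinset, (1 - v (B, ℓ x)) := by
        rw [Finset.mul_sum, Finset.mul_sum, ← Finset.sum_add_distrib]
        refine Finset.sum_congr rfl fun B _ => ?_
        have : t = 1 - s := by linarith
        subst this
        ring
      rw [e]
      nlinarith
    have hyle : ∀ n, ∑ B ∈ (hfin x).toFinset, (1 - y n (B, ℓ x)) ≤ 1 := by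
      intro n
      refine convexHull_min ?_ hconv (hy1 n)
      rintro _ ⟨m, rfl⟩
      simp only [mem_ofPred_eq, hh]
      have e : ∀ B ∈ (hfin x).toFinset,
          (1 - if Cl 𝓑 (r (n + m) (ℓ x)) B (ℓ x) then (1 : ℝ) else 0) =
          if ¬ Cl 𝓑 (r (n + m) (ℓ x)) B (ℓ x) then 1 else 0 := by
        intro B _
        by_cases hc : Cl 𝓑 (r (n + m) (ℓ x)) B (ℓ x)
        · rw [if_pos hc, if_neg (not_not.2 hc)]
          norm_num
        · rw [if_neg hc, if_pos hc]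
          norm_num
      rw [Finset.sum_congr rfl e, Finset.sum_ite, Finset.sum_const_zero, add_zero,
        Finset.sum_const, nsmul_eq_mul, mul_one]
      have hcard : ((hfin x).toFinset.filter
          fun B => ¬ Cl 𝓑 (r (n + m) (ℓ x)) B (ℓ x)).card ≤ 1 := by
        refine Finset.card_le_one.2 fun B hB B' hB' => ?_
        simp only [Finset.mem_filter, Finite.mem_toFinset, mem_ofPred_eq] at hB hB'
        obtain ⟨⟨p1, p2⟩, p3⟩ := hB
        obtain ⟨⟨q1, q2⟩, q3⟩ := hB'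
        have p2' := (hdomℓ x B p1).1 p2
        have q2' := (hdomℓ x B' q1).1 q2
        have hℓY : ℓ x ∈ Y := hYinv x (ℓ x) (hjoin B p1 x p2 _ p2') hxY
        exact nCl_unique hG p1 q1 p2' q2' (hreach _ _ hℓY) p3 q3
      exact_mod_cast hcard
    have ht : Tendsto (fun n => ∑ B ∈ (hfin x).toFinset, (1 - y n (B, ℓ x))) atTop
        (𝓝 (∑ B ∈ (hfin x).toFinset, (1 - σ (B, ℓ x)))) := by
      refine tendsto_finsetSum _ fun B hB => tendsto_const_nhds.sub (hσC _ ?_)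
      simp only [Finite.mem_toFinset, mem_ofPred_eq] at hB
      exact hxC x (hE'e.refl x) B hB.1 hB.2
    exact le_of_tendsto' ht hyle

theorem main_lll (hk : 0 < k) {𝓑 : Set (Finset (Finset (X × Fin k)))} (h𝓑 : MeasurableSet 𝓑)
    (hbad : ∀ B ∈ 𝓑, IsBadEvent B)
    {ω : Finset (Finset (X × Fin k)) → ℝ} (hω : Measurable ω) (hL : CorrectLLL 𝓑 ω)
    (hG : (incidence 𝓑).IsAcyclic) (μ : Measure X) [IsProbabilityMeasure μ]
    (hH : MuHyperfinite μ (Joined 𝓑)) :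
    ∃ f : X → Fin k, Measurable f ∧ μ (defect f 𝓑) = 0 := by
  have hfin : ∀ x : X, {B | B ∈ 𝓑 ∧ x ∈ dom B}.Finite := by
    intro x
    by_cases hx : ∃ B, B ∈ 𝓑 ∧ x ∈ dom B
    · obtain ⟨B0, hB0, hx0⟩ := hx
      refine ((hL B0 hB0).2.2.1.insert B0).subset ?_
      rintro B ⟨h1, h2⟩
      by_cases h : B = B0
      · exact Or.inl h
      · exact Or.inr ⟨h1, h, x, h2, hx0⟩
    · have : {B | B ∈ 𝓑 ∧ x ∈ dom B} = ∅ := by
        ext B
        simp only [mem_ofPred_eq, mem_empty_iff_false, iff_false]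
        exact fun h => hx ⟨B, h⟩
      rw [this]
      exact finite_empty
  obtain ⟨ℓ, hℓ, hℓ1, hℓ2⟩ := twin_leader h𝓑 hfin
  obtain ⟨G, σ, hGm, hGμ, hGinv, hσm, hσ01, hc1, hc2⟩ :=
    limit_weights h𝓑 hfin hG μ hH hℓ hℓ1 hℓ2
  obtain ⟨f, hf1, hf2⟩ := finish hk h𝓑 hbad hfin hω hL hG hℓ hℓ1 hℓ2 hGm hGinv hσm hσ01 hc1 hc2
  refine ⟨f, hf1, measure_mono_null ?_ hGμ⟩
  rintro x ⟨B, hB, φ, hφ, hx, hall⟩ hxG
  have hxB : x ∈ dom B := by
    rw [Finset.mem_image] at hx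
    obtain ⟨q, hq, rfl⟩ := hx
    exact fst_mem_dom hφ hq
  exact hf2 B hB (fun z hz => hGinv B hB x hxB z hz hxG) φ hφ hall

end

end Pool.Agent.Helper105
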